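import Pool.Agent.H46.RG.Def

/-!
# Power of the logarithm (MP_edeaa2_an): definitions

Let `F` be a product of `d ≥ 3` real linear forms, bounded below by `c > 0` at the nonzero integer
points, not proportional to a form with integer coefficients, determinant `± 1`.  Then `F` takes at
least `κ (log (1 / ε)) ^ m` values in `[-R, R]` at pairwise distance at least `ε`, where
`m = d - d / p`, `p` the least prime factor of `d` (so `m = d - 1` for prime `d`); `R, κ` depend on `c`
and `d` only.

Idea of the proof.  A *tower*: a list of steps (the last step is the head of the list); a step has two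
labels `r ≠ r'` of blocks of the current partition of `{0, …, d - 1}` and a nonzero matrix `v` with
entries in the rows of the block `r` and the columns of the block `r'` only, and then merges the
two blocks.  `Ys Y st` is the set of the `z` such that all `2 ^ q` products
`(1 + v_1)^(e_1) ⋯ (1 + v_q)^(e_q) z` lie in `Y`; it is invariant under the positive diagonal matrices
which are constant on the blocks.  By theorem S (`block_shear`) a tower can be continued as long as
there are more than `d / p` blocks.  For a point `z` of `Ys Y st` and a positive diagonal matrix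
`exp α` there is an integer vector `x` such that `|(z x)_p|` is comparable to `exp (- α_p)`.  The relative
change of the value under the shear `v` is about `rho v α = ∑ |v_pl| exp (α_p - α_l)` if one term
dominates (`Dom`).  The exponents `α = alp .. st ks` are chosen such that `rho v α = ρ₀ λ ^ k` for every
step `v` and its number `k` in the list `ks`; `ks` is increasing, so the last shear has the largest
scale.  So there is a binary tree (`Tr`) of values with the scales `λ ^ k`.  Finally all but few of the
lists `ks` in the box `BX` are good (`Good`: one term dominates in every step), and a set of reals with a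
tree for every list of a set of lists contains as many separated points as there are lists.
-/

set_option autoImplicit false

namespace Pool.Agent.H66.RL

open Matrix Filter Topology Pool.Agent.H89.CSD Pool.Agent.H46.RG

variable {d : ℕ}

/-- The positive diagonal matrices of determinant one which are constant on the blocks of `β`. -/
def TT (β : Fin d → Fin d) : Set (Fin d → ℝ) :=
  {a | a ∈ A1 d ∧ ∀ i j, β i = β j → a i = a j}

/-- Merging the block `r'` into the block `r`. -/
def mrg (β : Fin d → Fin d) (r r' : Fin d) (i : Fin d) : Fin d := if β i = r' then r else β i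

/-- The data of a step: two labels and a matrix. -/
structure Step (d : ℕ) where
  r : Fin d
  r' : Fin d
  v : Matrix (Fin d) (Fin d) ℝ

/-- The labelling of the partition after the steps `st` (the head is the last step). -/
def lab : List (Step d) → Fin d → Fin d
  | [] => fun i => i
  | s :: st => mrg (lab st) s.r s.r'

/-- Validity of a list of steps. -/
def Val : List (Step d) → Prop
  | [] => True
  | s :: st => Val st ∧ s.r ≠ s.r' ∧ s.v ≠ 0 ∧
      ∀ p l, s.v p l ≠ 0 → lab st p = s.r ∧ lab st l = s.r'

/-- The `z` such that all products `(1 + v_1)^(e_1) ⋯ (1 + v_q)^(e_q) z` are in `Y`. -/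
def Ys (Y : Set (Matrix (Fin d) (Fin d) ℝ)) : List (Step d) → Set (Matrix (Fin d) (Fin d) ℝ)
  | [] => Y
  | s :: st => {z | z ∈ Ys Y st ∧ (1 + s.v) * z ∈ Ys Y st}

/-- The size of the shear `v` at the exponents `α`. -/
noncomputable def rho (v : Matrix (Fin d) (Fin d) ℝ) (α : Fin d → ℝ) : ℝ :=
  ∑ p, ∑ l, |v p l| * Real.exp (α p - α l)

/-- One term of `rho` is at least `Lam` times every other term. -/
def Dom (Lam : ℝ) (v : Matrix (Fin d) (Fin d) ℝ) (α : Fin d → ℝ) : Prop :=
  ∃ p l, v p l ≠ 0 ∧ ∀ p' l', (p', l') ≠ (p, l) →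
    Lam * (|v p' l'| * Real.exp (α p' - α l')) ≤ |v p l| * Real.exp (α p - α l)

/-- The exponents. -/
noncomputable def alp (ρ₀ lam : ℝ) : List (Step d) → List ℕ → Fin d → ℝ
  | s :: st, k :: ks => fun i => alp ρ₀ lam st ks i +
      if lab st i = s.r then Real.log (ρ₀ * lam ^ k / rho s.v (alp ρ₀ lam st ks)) else 0
  | _, _ => fun _ => 0

/-- One term dominates in every step. -/
def Good (ρ₀ lam Lam : ℝ) : List (Step d) → List ℕ → Prop
  | s :: st, _ :: ks => Good ρ₀ lam Lam st ks ∧ Dom Lam s.v (alp ρ₀ lam st ks)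
  | _, _ => True

/-- The exponents `α` fit to the numbers `ks`. -/
def Fit (ρ₀ lam Lam : ℝ) : List (Step d) → List ℕ → (Fin d → ℝ) → Prop
  | s :: st, k :: ks, α => rho s.v α = ρ₀ * lam ^ k ∧ Dom Lam s.v α ∧ Fit ρ₀ lam Lam st ks α
  | [], [], _ => True
  | _, _, _ => False

/-- Trees of values in `V` with the root `w`: scales `lam ^ k`, `k` from the list. -/
def Tr (c C lam : ℝ) (V : Set ℝ) : List ℕ → ℝ → Prop
  | [], w => w ∈ V
  | k :: ks, w => Tr c C lam V ks w ∧
      ∃ w', Tr c C lam V ks w' ∧ c * lam ^ k ≤ |w - w'| ∧ |w - w'| ≤ C * lam ^ k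

/-- The box of lists of length `q`: the entry with `j` entries after it is in
`[(m - 1 - j) n, (m - j) n)`. -/
def BX (m n : ℕ) : ℕ → Finset (List ℕ)
  | 0 => {[]}
  | q + 1 => ((Finset.Ico ((m - 1 - q) * n) ((m - q) * n)) ×ˢ BX m n q).image
      (fun x => x.1 :: x.2)

/-- A linear functional with integer coefficients. -/
def lf (e : Fin d → ℤ) (α : Fin d → ℝ) : ℝ := ∑ i, (e i : ℝ) * α i

/-- The values of the lattices in `Y`, bounded by `R`. -/
def Vb (Y : Set (Matrix (Fin d) (Fin d) ℝ)) (R : ℝ) : Set ℝ :=
  {v | ∃ h ∈ Y, ∃ x : Fin d → ℤ, x ≠ 0 ∧ v = P h (ic x) ∧ |v| ≤ R}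

theorem TT_subset (β : Fin d → Fin d) : TT β ⊆ A1 d := fun _ h => h.1

theorem mem_BX_succ {m n q : ℕ} {l : List ℕ} : l ∈ BX m n (q + 1) ↔
    ∃ k ks, l = k :: ks ∧ (m - 1 - q) * n ≤ k ∧ k < (m - q) * n ∧ ks ∈ BX m n q := by
  rw [BX]
  simp only [Finset.mem_image, Finset.mem_product, Finset.mem_Ico, Prod.exists]
  constructor
  · rintro ⟨k, ks, ⟨⟨h1, h2⟩, h3⟩, rfl⟩
    exact ⟨k, ks, rfl, h1, h2, h3⟩
  · rintro ⟨k, ks, rfl, h1, h2, h3⟩
    exact ⟨k, ks, ⟨⟨h1, h2⟩, h3⟩, rfl⟩

theorem rho_nonneg (v : Matrix (Fin d) (Fin d) ℝ) (α : Fin d → ℝ) : 0 ≤ rho v α :=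
  Finset.sum_nonneg fun _ _ => Finset.sum_nonneg fun _ _ =>
    mul_nonneg (abs_nonneg _) (Real.exp_pos _).le

theorem rho_pos {v : Matrix (Fin d) (Fin d) ℝ} (hv : v ≠ 0) (α : Fin d → ℝ) : 0 < rho v α := by
  have h1 : ∃ p l, v p l ≠ 0 := by
    by_contra h
    push Not at h
    apply hv
    ext p l
    exact h p l
  obtain ⟨p, l, hpl⟩ := h1
  refine Finset.sum_pos' (fun _ _ => Finset.sum_nonneg fun _ _ =>
    mul_nonneg (abs_nonneg _) (Real.exp_pos _).le) ⟨p, Finset.mem_univ _, ?_⟩
  exact Finset.sum_pos' (fun _ _ => mul_nonneg (abs_nonneg _) (Real.exp_pos _).le)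
    ⟨l, Finset.mem_univ _, mul_pos (abs_pos.2 hpl) (Real.exp_pos _)⟩

end Pool.Agent.H66.RL
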