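import Pool.Agent.H46.RG.Basic
import Pool.Agent.H66.RL.Def

/-!
# [H66 RL APX] Approximation by values of `g` (30 min)

Let `v = P h (ic x)`, `h ∈ Y ⊆ closure (Orb (A1 d) g)`, `x ≠ 0`: there are `a n ∈ A1`, `γ n` with
`diagonal (a n) * g * γ n → h` (`mem_closure_iff_seq_limit`), and
`P (diagonal (a n) * g * γ n) (ic x) = P g (ic (γ n *ᵥ x))` (`P_mul_im`, `P_diag_mul`, `∏ a = 1`) tends to `v`
(`continuous_P`), `γ n *ᵥ x ≠ 0` (`mulVec_ne`).  So `approx_one`.  For the finite set `T`: choose for every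
`v ∈ T` a vector `x v` with `|P g (ic (x v)) - v| < min (η / 2) 1`; for `v ≠ w` in `T` the values differ by
at least `2 η - η = η > 0`, so `x` is injective on `T`; `T' = T.image x`.
-/

set_option autoImplicit false

namespace Pool.Agent.H66.RL

open Matrix Filter Topology Pool.Agent.H89.CSD Pool.Agent.H46.RG

variable {d : ℕ}

theorem approx_one {g : Matrix (Fin d) (Fin d) ℝ} {Y : Set (Matrix (Fin d) (Fin d) ℝ)}
    (hY : Y ⊆ closure (Orb (A1 d) g)) {R v : ℝ} (hv : v ∈ Vb Y R) {η : ℝ} (hη : 0 < η) :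
    ∃ x : Fin d → ℤ, x ≠ 0 ∧ |P g (ic x) - v| < η := by
  obtain ⟨h, hh, x, hx, hvx, _⟩ := hv
  have hcl := hY hh
  have hopen : IsOpen {M : Matrix (Fin d) (Fin d) ℝ | |P M (ic x) - P h (ic x)| < η} :=
    isOpen_lt ((continuous_P _).sub continuous_const).abs continuous_const
  have hmem : h ∈ {M : Matrix (Fin d) (Fin d) ℝ | |P M (ic x) - P h (ic x)| < η} := by
    rw [Set.mem_ofPred_eq, sub_self, abs_zero]
    exact hη
  obtain ⟨M, hM1, hM2⟩ := mem_closure_iff.1 hcl _ hopen hmem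
  obtain ⟨a, ha, γ, hγ, rfl⟩ := hM2
  rw [Set.mem_ofPred_eq] at hM1
  have h1 : γ.map (Int.cast : ℤ → ℝ) = im γ := rfl
  rw [h1, P_mul_im, P_diag_mul, ha.2, one_mul] at hM1
  refine ⟨γ *ᵥ x, mulVec_ne hγ.ne_zero hx, ?_⟩
  rw [hvx]
  exact hM1

theorem approx {g : Matrix (Fin d) (Fin d) ℝ} {Y : Set (Matrix (Fin d) (Fin d) ℝ)}
    (hY : Y ⊆ closure (Orb (A1 d) g)) {R : ℝ} {T : Finset ℝ} (hT : ∀ v ∈ T, v ∈ Vb Y R) {η : ℝ}
    (hη : 0 < η) (hs : ∀ x ∈ T, ∀ y ∈ T, x ≠ y → 2 * η ≤ |x - y|) :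
    ∃ T' : Finset (Fin d → ℤ), T'.card = T.card ∧
      (∀ x ∈ T', x ≠ 0 ∧ |P g (ic x)| ≤ R + 1) ∧
      ∀ x ∈ T', ∀ y ∈ T', x ≠ y → η ≤ |P g (ic x) - P g (ic y)| := by
  classical
  have hpos : 0 < min (η / 2) 1 := lt_min (by linarith) one_pos
  have hex : ∀ v : ℝ, ∃ x : Fin d → ℤ, v ∈ T → x ≠ 0 ∧ |P g (ic x) - v| < min (η / 2) 1 := by
    intro v
    by_cases hv : v ∈ T
    · obtain ⟨x, hx1, hx2⟩ := approx_one hY (hT v hv) hpos
      exact ⟨x, fun _ => ⟨hx1, hx2⟩⟩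
    · exact ⟨0, fun h => absurd h hv⟩
  choose X hX using hex
  have hsep : ∀ v ∈ T, ∀ w ∈ T, v ≠ w → η ≤ |P g (ic (X v)) - P g (ic (X w))| := by
    intro v hv w hw hvw
    have h1 := ((hX v hv).2).trans_le (min_le_left _ _)
    have h2 := ((hX w hw).2).trans_le (min_le_left _ _)
    have h3 := hs v hv w hw hvw
    have h4 : |v - w| ≤ |P g (ic (X v)) - v| + |P g (ic (X v)) - P g (ic (X w))| +
        |P g (ic (X w)) - w| := by
      have e1 : v - w = -(P g (ic (X v)) - v) + (P g (ic (X v)) - P g (ic (X w))) +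
          (P g (ic (X w)) - w) := by ring
      calc |v - w| = |-(P g (ic (X v)) - v) + (P g (ic (X v)) - P g (ic (X w))) +
          (P g (ic (X w)) - w)| := by rw [← e1]
        _ ≤ |-(P g (ic (X v)) - v) + (P g (ic (X v)) - P g (ic (X w)))| +
          |P g (ic (X w)) - w| := abs_add_le _ _
        _ ≤ |-(P g (ic (X v)) - v)| + |P g (ic (X v)) - P g (ic (X w))| +
          |P g (ic (X w)) - w| := by
            have := abs_add_le (-(P g (ic (X v)) - v)) (P g (ic (X v)) - P g (ic (X w)))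
            linarith
        _ = _ := by rw [abs_neg]
    linarith
  have hinj : Set.InjOn X T := by
    intro v hv w hw hvw
    by_contra hne
    have h1 := hsep v hv w hw hne
    rw [hvw, sub_self, abs_zero] at h1
    linarith
  refine ⟨T.image X, Finset.card_image_of_injOn hinj, ?_, ?_⟩
  · intro x hx
    obtain ⟨v, hv, rfl⟩ := Finset.mem_image.1 hx
    refine ⟨(hX v hv).1, ?_⟩
    obtain ⟨_, _, _, _, _, hvR⟩ := hT v hv
    have h1 := ((hX v hv).2).trans_le (min_le_right _ _)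
    have h2 : |P g (ic (X v))| ≤ |P g (ic (X v)) - v| + |v| := by
      have := abs_add_le (P g (ic (X v)) - v) v
      simpa using this
    linarith
  · intro x hx y hy hxy
    obtain ⟨v, hv, rfl⟩ := Finset.mem_image.1 hx
    obtain ⟨w, hw, rfl⟩ := Finset.mem_image.1 hy
    exact hsep v hv w hw (fun h => hxy (by rw [h]))

end Pool.Agent.H66.RL
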