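import Pool.Agent.H66.RL.Def

/-!
# [H66 RL FIT] The exponents fit (45 min)

`lab_mono`: equal labels stay equal.  `Fit_shift`: induction on `st`: for `s :: st'` the entries
`s.v p l ≠ 0` have `lab st' p = s.r`, `lab st' l = s.r'`, so `lab (s :: st') p = lab (s :: st') l`, `γ p = γ l` and
`exp ((α + γ) p - (α + γ) l) = exp (α p - α l)`; so every term `|s.v p l| exp (..)` is unchanged (for
`s.v p l = 0` it is `0`), hence `rho` and `Dom` are unchanged; for the tail: `lab st' i = lab st' j` implies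
`lab (s :: st') i = lab (s :: st') j`, so `γ i = γ j`.

`fit_alp`: induction; `st = s :: st'`, `ks = k :: ks'`, `α' = alp st' ks'`, `α = α' + σ 1_{block s.r}`,
`σ = log (ρ₀ lam ^ k / rho s.v α')`.  For `s.v p l ≠ 0`: `lab st' p = s.r`, `lab st' l = s.r' ≠ s.r`, so
`α p - α l = α' p - α' l + σ` and every term of `rho` is multiplied by `exp σ = ρ₀ lam ^ k / rho s.v α'`
(`rho_pos`): `rho s.v α = ρ₀ lam ^ k`, and `Dom` is preserved (`Good` gives `Dom Lam s.v α'`).  The tail:
`Fit_shift` with `γ = σ 1_{block s.r}`, constant on the blocks of `lab st'`.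

`fit_zero`: subtract the mean (`Fit_shift` with a constant).
-/

set_option autoImplicit false

namespace Pool.Agent.H66.RL

open Matrix Filter Topology Pool.Agent.H89.CSD Pool.Agent.H46.RG

variable {d : ℕ}

private theorem term_shift {v : Matrix (Fin d) (Fin d) ℝ} {α α' : Fin d → ℝ} {σ : ℝ}
    (h : ∀ p l, v p l ≠ 0 → α' p - α' l = α p - α l + σ) (p l : Fin d) :
    |v p l| * Real.exp (α' p - α' l) = Real.exp σ * (|v p l| * Real.exp (α p - α l)) := by
  by_cases h0 : v p l = 0
  · rw [h0, abs_zero, zero_mul, zero_mul, mul_zero]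
  · rw [h p l h0, Real.exp_add]
    ring

private theorem rho_shift {v : Matrix (Fin d) (Fin d) ℝ} {α α' : Fin d → ℝ} {σ : ℝ}
    (h : ∀ p l, v p l ≠ 0 → α' p - α' l = α p - α l + σ) :
    rho v α' = Real.exp σ * rho v α := by
  unfold rho
  simp only [term_shift h, Finset.mul_sum]

private theorem Dom_shift {Lam : ℝ} {v : Matrix (Fin d) (Fin d) ℝ} {α α' : Fin d → ℝ} {σ : ℝ}
    (h : ∀ p l, v p l ≠ 0 → α' p - α' l = α p - α l + σ) (hD : Dom Lam v α) : Dom Lam v α' := by
  obtain ⟨p, l, h0, h1⟩ := hD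
  refine ⟨p, l, h0, fun p' l' hne => ?_⟩
  rw [term_shift h, term_shift h]
  have h2 := mul_le_mul_of_nonneg_left (h1 p' l' hne) (Real.exp_pos σ).le
  linarith

private theorem lab_mono (s : Step d) (st : List (Step d)) {i j : Fin d}
    (h : lab st i = lab st j) : lab (s :: st) i = lab (s :: st) j := by
  simp only [lab, mrg, h]

theorem Fit_shift {ρ₀ lam Lam : ℝ} {st : List (Step d)} (hv : Val st) {ks : List ℕ}
    {α γ : Fin d → ℝ} (hγ : ∀ i j, lab st i = lab st j → γ i = γ j)
    (h : Fit ρ₀ lam Lam st ks α) : Fit ρ₀ lam Lam st ks (fun i => α i + γ i) := by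
  induction st generalizing ks with
  | nil =>
    cases ks with
    | nil => trivial
    | cons k ks => exact h
  | cons s st ih =>
    cases ks with
    | nil => exact h
    | cons k ks =>
      have hv' : Val st ∧ s.r ≠ s.r' ∧ s.v ≠ 0 ∧
        ∀ p l, s.v p l ≠ 0 → lab st p = s.r ∧ lab st l = s.r' := hv
      have h' : rho s.v α = ρ₀ * lam ^ k ∧ Dom Lam s.v α ∧ Fit ρ₀ lam Lam st ks α := h
      have hsh : ∀ p l, s.v p l ≠ 0 →
          (fun i => α i + γ i) p - (fun i => α i + γ i) l = α p - α l + 0 := by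
        intro p l hpl
        obtain ⟨h1, h2⟩ := hv'.2.2.2 p l hpl
        have h3 : lab (s :: st) p = lab (s :: st) l := by
          simp only [lab, mrg, h1, h2, if_true]
          split_ifs <;> rfl
        have h4 := hγ p l h3
        simp only
        rw [h4]
        ring
      refine ⟨?_, Dom_shift hsh h'.2.1, ih hv'.1 (fun i j hij => hγ i j (lab_mono s st hij)) h'.2.2⟩
      rw [rho_shift hsh, Real.exp_zero, one_mul]
      exact h'.1

theorem fit_alp {ρ₀ lam Lam : ℝ} (hρ : 0 < ρ₀) (hlam : 0 < lam) {st : List (Step d)}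
    (hv : Val st) {ks : List ℕ} (hl : ks.length = st.length) (hg : Good ρ₀ lam Lam st ks) :
    Fit ρ₀ lam Lam st ks (alp ρ₀ lam st ks) := by
  induction st generalizing ks with
  | nil =>
    cases ks with
    | nil => trivial
    | cons k ks => simp at hl
  | cons s st ih =>
    cases ks with
    | nil => simp at hl
    | cons k ks =>
      have hv' : Val st ∧ s.r ≠ s.r' ∧ s.v ≠ 0 ∧
        ∀ p l, s.v p l ≠ 0 → lab st p = s.r ∧ lab st l = s.r' := hv
      have hg' : Good ρ₀ lam Lam st ks ∧ Dom Lam s.v (alp ρ₀ lam st ks) := hg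
      set σ : ℝ := Real.log (ρ₀ * lam ^ k / rho s.v (alp ρ₀ lam st ks)) with hσ
      have halp : alp ρ₀ lam (s :: st) (k :: ks) =
          fun i => alp ρ₀ lam st ks i + if lab st i = s.r then σ else 0 := rfl
      have hsh : ∀ p l, s.v p l ≠ 0 → alp ρ₀ lam (s :: st) (k :: ks) p -
          alp ρ₀ lam (s :: st) (k :: ks) l = alp ρ₀ lam st ks p - alp ρ₀ lam st ks l + σ := by
        intro p l hpl
        obtain ⟨h1, h2⟩ := hv'.2.2.2 p l hpl
        rw [halp]
        simp only [h1, h2, if_true, if_neg hv'.2.1.symm]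
        ring
      have hrho : 0 < rho s.v (alp ρ₀ lam st ks) := rho_pos hv'.2.2.1 _
      have hl' : ks.length = st.length := by simpa using hl
      refine ⟨?_, Dom_shift hsh hg'.2, ?_⟩
      · rw [rho_shift hsh, hσ, Real.exp_log (by positivity), div_mul_cancel₀ _ hrho.ne']
      · rw [halp]
        refine Fit_shift hv'.1 ?_ (ih hv'.1 hl' hg'.1)
        intro i j hij
        simp only [hij]

theorem fit_zero (hd : 1 ≤ d) {ρ₀ lam Lam : ℝ} (hρ : 0 < ρ₀) (hlam : 0 < lam)
    {st : List (Step d)} (hv : Val st) {ks : List ℕ} (hl : ks.length = st.length)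
    (hg : Good ρ₀ lam Lam st ks) : ∃ α : Fin d → ℝ, ∑ i, α i = 0 ∧ Fit ρ₀ lam Lam st ks α := by
  refine ⟨fun i => alp ρ₀ lam st ks i + (-(∑ j, alp ρ₀ lam st ks j) / d), ?_,
    Fit_shift (γ := fun _ => -(∑ j, alp ρ₀ lam st ks j) / d) hv (fun _ _ _ => rfl)
      (fit_alp hρ hlam hv hl hg)⟩
  rw [Finset.sum_add_distrib, Finset.sum_const, Finset.card_univ, Fintype.card_fin, nsmul_eq_mul]
  have hd0 : (d : ℝ) ≠ 0 := by
    have : 0 < d := hd
    exact_mod_cast this.ne'
  rw [mul_div_cancel₀ _ hd0]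
  ring

end Pool.Agent.H66.RL
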