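import Pool.Agent.H89.CSD.Magnify
import Pool.Agent.H66.RL.Def

/-!
# [H66 RL FX] An integer vector with all forms of size about one (30 min)

Let `R₀` be from `H89.CSD.mahler` for `ρ = min c 1`, determinants of absolute value `1` (`Pos.short` gives the
lower bound for the vectors of the lattice); `U` a unit with the entries of `h * im U` in `[-R₀, R₀]`; `x` the
first column of `U` (`U *ᵥ Pi.single 0 1`; nonzero by `mulVec_ne`, `det_unit_ne`).  Then `|(h x) p| ≤ R₀` and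
`c ≤ |P h x| = ∏ |(h x) p|`, so `|(h x) p| ≥ c / R₁ ^ (d - 1)` with `R₁ = max R₀ 1`.
`B = max (R₁) (R₁ ^ (d - 1) / c)` (and `≥ 1`).
-/

set_option autoImplicit false

namespace Pool.Agent.H66.RL

open Matrix Filter Topology Pool.Agent.H89.CSD Pool.Agent.H46.RG

variable {d : ℕ}

theorem find_x (hd : 1 ≤ d) {c : ℝ} (hc : 0 < c) :
    ∃ B : ℝ, 1 ≤ B ∧ ∀ h : Matrix (Fin d) (Fin d) ℝ, |h.det| = 1 → Pos c h →
      ∃ x : Fin d → ℤ, x ≠ 0 ∧ ∀ p, B⁻¹ ≤ |(h *ᵥ ic x) p| ∧ |(h *ᵥ ic x) p| ≤ B := by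
  classical
  obtain ⟨R0, _, hR⟩ := mahler d (min c 1) 1 1 (lt_min hc one_pos) one_pos zero_le_one
  set R1 : ℝ := max R0 1 with hR1
  have h11 : 1 ≤ R1 := le_max_right _ _
  have h10 : 0 < R1 := by linarith
  set B : ℝ := max R1 (R1 ^ (d - 1) / c) with hB
  have hB1 : R1 ≤ B := le_max_left _ _
  have hB2 : R1 ^ (d - 1) / c ≤ B := le_max_right _ _
  have hB0 : 0 < B := by linarith
  refine ⟨B, h11.trans hB1, fun h hdet hp => ?_⟩
  obtain ⟨U, hU⟩ := hR h hdet.ge hdet.le (fun x hx => hp.short hx)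
  set j0 : Fin d := ⟨0, by omega⟩ with hj0
  set e : Fin d → ℤ := Pi.single j0 1 with he
  have he0 : e ≠ 0 := by
    intro h0
    have := congrFun h0 j0
    simp [he] at this
  set x : Fin d → ℤ := (U : Matrix (Fin d) (Fin d) ℤ) *ᵥ e with hx
  have hx0 : x ≠ 0 := mulVec_ne (det_unit_ne U) he0
  have hval : ∀ p, (h *ᵥ ic x) p = (h * im (U : Matrix (Fin d) (Fin d) ℤ)) p j0 := by
    intro p
    rw [hx, ← im_mulVec, Matrix.mulVec_mulVec]
    have hic : ic e = Pi.single j0 (1 : ℝ) := by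
      ext j
      by_cases hj : j = j0
      · subst hj
        simp [ic, he]
      · simp [ic, he, hj]
    rw [hic, Matrix.mulVec_single_one]
    rfl
  have hup : ∀ p, |(h *ᵥ ic x) p| ≤ R1 := fun p => by
    rw [hval]
    exact (hU p j0).trans (le_max_left _ _)
  refine ⟨x, hx0, fun p => ⟨?_, (hup p).trans hB1⟩⟩
  have h1 : c ≤ |P h (ic x)| := hp x hx0
  rw [P_eq, Finset.abs_prod, ← Finset.mul_prod_erase _ _ (Finset.mem_univ p)] at h1
  have h2 : ∏ i ∈ Finset.univ.erase p, |(h *ᵥ ic x) i| ≤ R1 ^ (d - 1) := by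
    calc ∏ i ∈ Finset.univ.erase p, |(h *ᵥ ic x) i| ≤ ∏ i ∈ Finset.univ.erase p, R1 :=
          Finset.prod_le_prod (fun _ _ => abs_nonneg _) fun i _ => hup i
      _ = R1 ^ (d - 1) := by
          rw [Finset.prod_const, Finset.card_erase_of_mem (Finset.mem_univ p), Finset.card_univ,
            Fintype.card_fin]
  have h3 : c ≤ |(h *ᵥ ic x) p| * R1 ^ (d - 1) :=
    h1.trans (mul_le_mul_of_nonneg_left h2 (abs_nonneg _))
  have h4 : 0 < R1 ^ (d - 1) := by positivity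
  have h5 : B⁻¹ ≤ (R1 ^ (d - 1) / c)⁻¹ := inv_anti₀ (by positivity) hB2
  refine h5.trans ?_
  rw [inv_div, div_le_iff₀ h4]
  exact h3

end Pool.Agent.H66.RL
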