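import Pool.Agent.H66.RL.Lin

/-!
# [H66 RL GOOD] Most lists are good (60 min)

Induction on `st`.  `st = s :: st'`, `q = |st'|`.  A list `k :: ks` of the box which is not good is one with
`ks` not good, or with `¬ Dom Lam s.v (alp st' ks)`.  The first kind: at most
`n * (n ^ q - |good|) ≤ n * (q d ^ 4 n ^ (q - 1)) ≤ q d ^ 4 n ^ q` lists.

`not_dom`: if `¬ Dom Lam v α`, `v ≠ 0`, take `(p, l)` where `|v p l| exp (α p - α l)` is maximal
(`Finset.exists_max_image` on the pairs); it is positive, so `v p l ≠ 0`, and there is `(p', l') ≠ (p, l)` with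
`Lam * (|v p' l'| exp (α p' - α l')) > |v p l| exp (α p - α l) > 0`, so `v p' l' ≠ 0` and
`|log |v p l| - log |v p' l'| + (α p - α l) - (α p' - α l')| < log Lam` (the number is `≥ 0` by
maximality).

Second kind: `ks` is in one of at most `d ^ 4` sets (pairs `(p, l) ≠ (p', l')` of pairs with
`v p l ≠ 0 ≠ v p' l'`) `{ks | |lf e (alp st' ks) + t| < log Lam}` with `e = δ_p - δ_l - δ_p' + δ_l'`
(`Pi.single`), `t = log |v p l| - log |v p' l'|`.  `e ≠ 0`: `p, p'` are in the block `s.r` and `l, l'` in the block
`s.r'` of `lab st'` (`Val`), so `{p, p'}` and `{l, l'}` are disjoint, and `p ≠ p'` or `l ≠ l'`; sum zero on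
every block.  By `bad_count` each set has at most `n ^ (q - 1)` elements, together with `k` at most
`n ^ q` lists (`q ≥ 1` because for `st' = []` there are no two different pairs: the blocks are singletons;
so for `q = 0` there is nothing of the second kind).
Total: at most `q d ^ 4 n ^ q + d ^ 4 n ^ q = (q + 1) d ^ 4 n ^ q`.
-/

set_option autoImplicit false

namespace Pool.Agent.H66.RL

open Matrix Filter Topology Pool.Agent.H89.CSD Pool.Agent.H46.RG

variable {d : ℕ}

theorem not_dom {Lam : ℝ} {v : Matrix (Fin d) (Fin d) ℝ} (hv : v ≠ 0) {α : Fin d → ℝ}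
    (h : ¬ Dom Lam v α) : ∃ p l p' l', (p', l') ≠ (p, l) ∧ v p l ≠ 0 ∧ v p' l' ≠ 0 ∧
      |Real.log |v p l| - Real.log |v p' l'| + ((α p - α l) - (α p' - α l'))| <
        Real.log Lam := by
  classical
  have h1 : ∃ p l, v p l ≠ 0 := by
    by_contra h
    push Not at h
    apply hv
    ext p l
    exact h p l
  obtain ⟨a, b, hab⟩ := h1
  obtain ⟨f, hf⟩ : ∃ f : Fin d × Fin d → ℝ,
      f = fun x => |v x.1 x.2| * Real.exp (α x.1 - α x.2) := ⟨_, rfl⟩
  obtain ⟨⟨p, l⟩, -, hmax⟩ := Finset.exists_max_image (Finset.univ : Finset (Fin d × Fin d)) f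
    ⟨(a, b), Finset.mem_univ _⟩
  have hf0 : ∀ x, 0 ≤ f x := by
    intro x
    rw [hf]
    exact mul_nonneg (abs_nonneg _) (Real.exp_pos _).le
  have hpos : 0 < f (p, l) := by
    refine lt_of_lt_of_le ?_ (hmax (a, b) (Finset.mem_univ _))
    rw [hf]
    exact mul_pos (abs_pos.2 hab) (Real.exp_pos _)
  have hne : ∀ x, 0 < f x → v x.1 x.2 ≠ 0 := by
    intro x hx h0
    rw [hf] at hx
    beta_reduce at hx
    rw [h0, abs_zero, zero_mul] at hx
    exact lt_irrefl _ hx
  have hvpl : v p l ≠ 0 := hne (p, l) hpos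
  have hex : ∃ p' l', (p', l') ≠ (p, l) ∧ f (p, l) < Lam * f (p', l') := by
    by_contra hcon
    push Not at hcon
    apply h
    refine ⟨p, l, hvpl, fun p' l' hpl => ?_⟩
    have := hcon p' l' hpl
    rw [hf] at this
    exact this
  obtain ⟨p', l', hpl, hlt⟩ := hex
  have hle := hmax (p', l') (Finset.mem_univ _)
  have hpos' : 0 < f (p', l') := by
    rcases (hf0 (p', l')).eq_or_lt with h2 | h2
    · rw [← h2, mul_zero] at hlt
      exact absurd hlt (not_lt.2 hpos.le)
    · exact h2
  have hvpl' : v p' l' ≠ 0 := hne (p', l') hpos'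
  have hL : 0 < Lam := by
    by_contra h2
    have h3 : Lam * f (p', l') ≤ 0 := mul_nonpos_of_nonpos_of_nonneg (not_lt.1 h2) hpos'.le
    linarith
  have hlog : ∀ x, v x.1 x.2 ≠ 0 → Real.log (f x) = Real.log |v x.1 x.2| + (α x.1 - α x.2) := by
    intro x hx
    rw [hf]
    beta_reduce
    rw [Real.log_mul (abs_pos.2 hx).ne' (Real.exp_pos _).ne', Real.log_exp]
  refine ⟨p, l, p', l', hpl, hvpl, hvpl', ?_⟩
  have e1 : Real.log |v p l| - Real.log |v p' l'| + ((α p - α l) - (α p' - α l')) =
      Real.log (f (p, l)) - Real.log (f (p', l')) := by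
    rw [hlog (p, l) hvpl, hlog (p', l') hvpl']
    ring
  rw [e1, abs_of_nonneg (sub_nonneg.2 (Real.log_le_log hpos' hle))]
  have e2 := Real.log_lt_log hpos hlt
  rw [Real.log_mul hL.ne' hpos'.ne'] at e2
  linarith

/-- the integer vector of two pairs -/
private def ev (x y : Fin d × Fin d) : Fin d → ℤ :=
  Pi.single x.1 1 - Pi.single x.2 1 - Pi.single y.1 1 + Pi.single y.2 1

private theorem lf_single (p : Fin d) (α : Fin d → ℝ) :
    ∑ i, ((Pi.single p 1 : Fin d → ℤ) i : ℝ) * α i = α p := by
  classical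
  rw [Finset.sum_eq_single p]
  · rw [Pi.single_eq_same, Int.cast_one, one_mul]
  · intro b _ hb
    rw [Pi.single_eq_of_ne hb, Int.cast_zero, zero_mul]
  · intro h
    exact absurd (Finset.mem_univ p) h

private theorem lf_ev (x y : Fin d × Fin d) (α : Fin d → ℝ) :
    lf (ev x y) α = (α x.1 - α x.2) - (α y.1 - α y.2) := by
  unfold lf ev
  simp only [Pi.add_apply, Pi.sub_apply, Int.cast_add, Int.cast_sub, add_mul, sub_mul,
    Finset.sum_add_distrib, Finset.sum_sub_distrib, lf_single]
  ring

private theorem sum_filter_single (β : Fin d → Fin d) (r p : Fin d) :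
    ∑ i ∈ Finset.univ.filter (fun i => β i = r), (Pi.single p 1 : Fin d → ℤ) i =
      if β p = r then 1 else 0 := by
  classical
  rw [Finset.sum_filter, Finset.sum_eq_single p]
  · rw [Pi.single_eq_same]
  · intro b _ hb
    rw [Pi.single_eq_of_ne hb, ite_self]
  · intro h
    exact absurd (Finset.mem_univ p) h

open Classical in
theorem good_count {ρ₀ lam Lam : ℝ} (hρ : 0 < ρ₀) (hlam : 0 < lam)
    (hW : 2 * Real.log Lam ≤ Real.log (1 / lam)) (m n : ℕ) {st : List (Step d)} (hv : Val st)
    (hm : st.length ≤ m) :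
    n ^ st.length ≤ ((BX m n st.length).filter (Good ρ₀ lam Lam st)).card +
      st.length * d ^ 4 * n ^ (st.length - 1) := by
  induction st with
  | nil =>
    have h1 : (BX m n ([] : List (Step d)).length).filter
        (Good ρ₀ lam Lam ([] : List (Step d))) = ({[]} : Finset (List ℕ)) := by
      rw [List.length_nil, BX, Finset.filter_singleton, if_pos]
      simp [Good]
    rw [h1]
    simp
  | cons s st ih =>
    obtain ⟨hv1, hrr, hs0, hsv⟩ := hv
    obtain ⟨q, hq⟩ : ∃ q, q = st.length := ⟨_, rfl⟩
    rw [List.length_cons, ← hq] at hm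
    have ih' := ih hv1 (by omega)
    rw [List.length_cons, ← hq, Nat.add_sub_cancel]
    rw [← hq] at ih'
    -- the lists of the box which are not good
    have hbox : ((BX m n (q + 1)).filter (Good ρ₀ lam Lam (s :: st))).card +
        ((BX m n (q + 1)).filter (fun ks => ¬ Good ρ₀ lam Lam (s :: st) ks)).card = n ^ (q + 1) := by
      rw [Finset.card_filter_add_card_filter_not, card_BX hm]
    have hbox' : ((BX m n q).filter (Good ρ₀ lam Lam st)).card +
        ((BX m n q).filter (fun ks => ¬ Good ρ₀ lam Lam st ks)).card = n ^ q := by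
      rw [Finset.card_filter_add_card_filter_not, card_BX (by omega)]
    -- the index set of the pairs
    obtain ⟨PR, hPR⟩ : ∃ PR : Finset ((Fin d × Fin d) × (Fin d × Fin d)),
        PR = Finset.univ.filter (fun x => x.2 ≠ x.1 ∧ s.v x.1.1 x.1.2 ≠ 0 ∧
          s.v x.2.1 x.2.2 ≠ 0) := ⟨_, rfl⟩
    obtain ⟨Bd, hBd⟩ : ∃ Bd : (Fin d × Fin d) × (Fin d × Fin d) → Finset (List ℕ),
        Bd = fun x => (BX m n q).filter (fun ks => |lf (ev x.1 x.2) (alp ρ₀ lam st ks) +
          (Real.log |s.v x.1.1 x.1.2| - Real.log |s.v x.2.1 x.2.2|)| < Real.log Lam) := ⟨_, rfl⟩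
    have hPRc : PR.card ≤ d ^ 4 := by
      rw [hPR]
      refine (Finset.card_filter_le _ _).trans ?_
      rw [Finset.card_univ, Fintype.card_prod, Fintype.card_prod, Fintype.card_fin]
      exact le_of_eq (by ring)
    -- every list which is not good
    have hsub : (BX m n (q + 1)).filter (fun ks => ¬ Good ρ₀ lam Lam (s :: st) ks) ⊆
        ((Finset.Ico ((m - 1 - q) * n) ((m - q) * n)) ×ˢ
          (((BX m n q).filter (fun ks => ¬ Good ρ₀ lam Lam st ks)) ∪ PR.biUnion Bd)).image
            (fun x => x.1 :: x.2) := by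
      intro ks hks
      rw [Finset.mem_filter, mem_BX_succ] at hks
      obtain ⟨⟨k, ks', rfl, h1, h2, h3⟩, h4⟩ := hks
      rw [Finset.mem_image]
      refine ⟨(k, ks'), ?_, rfl⟩
      rw [Finset.mem_product, Finset.mem_Ico, Finset.mem_union]
      refine ⟨⟨h1, h2⟩, ?_⟩
      by_cases h5 : Good ρ₀ lam Lam st ks'
      · right
        have h6 : ¬ Dom Lam s.v (alp ρ₀ lam st ks') := by
          intro h7
          apply h4
          rw [Good]
          exact ⟨h5, h7⟩
        obtain ⟨p, l, p', l', hne, hp, hp', hlt⟩ := not_dom hs0 h6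
        rw [Finset.mem_biUnion]
        refine ⟨((p, l), (p', l')), ?_, ?_⟩
        · rw [hPR, Finset.mem_filter]
          exact ⟨Finset.mem_univ _, hne, hp, hp'⟩
        · rw [hBd, Finset.mem_filter]
          refine ⟨h3, ?_⟩
          rw [lf_ev, add_comm]
          exact hlt
      · left
        rw [Finset.mem_filter]
        exact ⟨h3, h5⟩
    have hinj : Function.Injective (fun x : ℕ × List ℕ => x.1 :: x.2) := by
      rintro ⟨a, b⟩ ⟨c, e⟩ h
      simp only [List.cons.injEq] at h
      rw [h.1, h.2]
    have hIco : (Finset.Ico ((m - 1 - q) * n) ((m - q) * n)).card = n := by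
      rw [Nat.card_Ico, ← Nat.sub_mul]
      have : m - q - (m - 1 - q) = 1 := by omega
      rw [this, one_mul]
    have hc1 := Finset.card_le_card hsub
    rw [Finset.card_image_of_injective _ hinj, Finset.card_product, hIco] at hc1
    have hc2 : (((BX m n q).filter (fun ks => ¬ Good ρ₀ lam Lam st ks)) ∪ PR.biUnion Bd).card ≤
        ((BX m n q).filter (fun ks => ¬ Good ρ₀ lam Lam st ks)).card + (PR.biUnion Bd).card :=
      Finset.card_union_le _ _
    -- each of the sets is small
    have hBdc : ∀ x ∈ PR, n * (Bd x).card ≤ n ^ q := by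
      rintro ⟨⟨p, l⟩, ⟨p', l'⟩⟩ hx
      rw [hPR, Finset.mem_filter] at hx
      obtain ⟨-, hne, hp, hp'⟩ := hx
      simp only [ne_eq] at hne hp hp'
      obtain ⟨a1, a2⟩ := hsv p l hp
      obtain ⟨a3, a4⟩ := hsv p' l' hp'
      have he0 : ev (p, l) (p', l') ≠ 0 := by
        intro h0
        apply hne
        have hpl' : p ≠ l' := fun h => hrr (by rw [← a1, h, a4])
        have hpl : p ≠ l := fun h => hrr (by rw [← a1, h, a2])
        have hp'l : p' ≠ l := fun h => hrr (by rw [← a3, h, a2])
        have hp'l' : p' ≠ l' := fun h => hrr (by rw [← a3, h, a4])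
        have g1 := congrFun h0 p
        have g2 := congrFun h0 l
        simp only [ev, Pi.add_apply, Pi.sub_apply, Pi.zero_apply, Pi.single_eq_same] at g1 g2
        rw [Pi.single_eq_of_ne hpl, Pi.single_eq_of_ne hpl'] at g1
        rw [Pi.single_eq_of_ne hpl.symm, Pi.single_eq_of_ne hp'l.symm] at g2
        have g3 : p = p' := by
          by_contra h
          rw [Pi.single_eq_of_ne h] at g1
          omega
        have g4 : l = l' := by
          by_contra h
          rw [Pi.single_eq_of_ne h] at g2
          omega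
        rw [g3, g4]
      have hsum : ∀ r, ∑ i ∈ Finset.univ.filter (fun i => lab st i = r),
          ev (p, l) (p', l') i = 0 := by
        intro r
        simp only [ev, Pi.add_apply, Pi.sub_apply, Finset.sum_add_distrib,
          Finset.sum_sub_distrib, sum_filter_single]
        rw [a1, a2, a3, a4]
        ring
      have hb := bad_count hρ hlam hW m n hv1 (by rw [← hq]; omega) (ev (p, l) (p', l')) he0 hsum
        (Real.log |s.v p l| - Real.log |s.v p' l'|)
      rw [← hq] at hb
      have hBx : (Bd ((p, l), (p', l'))).card ≤ n ^ (q - 1) := by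
        rw [hBd]
        exact hb
      -- `q ≥ 1`
      have hq1 : 1 ≤ q := by
        by_contra hq0
        have hq0' : st = [] := by
          apply List.eq_nil_of_length_eq_zero
          omega
        rw [hq0'] at a1 a2 a3 a4
        apply hne
        have b1 : p = p' := by
          have : (lab ([] : List (Step d)) p) = lab [] p' := a1.trans a3.symm
          exact this
        have b2 : l = l' := by
          have : (lab ([] : List (Step d)) l) = lab [] l' := a2.trans a4.symm
          exact this
        rw [b1, b2]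
      calc n * (Bd ((p, l), (p', l'))).card ≤ n * n ^ (q - 1) := Nat.mul_le_mul_left n hBx
        _ = n ^ q := by
          rw [← pow_succ']
          congr 1
          omega
    have hc3 : n * (PR.biUnion Bd).card ≤ d ^ 4 * n ^ q := by
      calc n * (PR.biUnion Bd).card ≤ n * ∑ x ∈ PR, (Bd x).card :=
            Nat.mul_le_mul_left n Finset.card_biUnion_le
        _ = ∑ x ∈ PR, n * (Bd x).card := Finset.mul_sum _ _ _
        _ ≤ ∑ _x ∈ PR, n ^ q := Finset.sum_le_sum hBdc
        _ = PR.card * n ^ q := by rw [Finset.sum_const, smul_eq_mul]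
        _ ≤ d ^ 4 * n ^ q := Nat.mul_le_mul_right _ hPRc
    have hc4 : n * ((BX m n q).filter (fun ks => ¬ Good ρ₀ lam Lam st ks)).card ≤
        q * d ^ 4 * n ^ q := by
      have h1 : ((BX m n q).filter (fun ks => ¬ Good ρ₀ lam Lam st ks)).card ≤
          q * d ^ 4 * n ^ (q - 1) := by omega
      rcases Nat.eq_zero_or_pos q with h2 | h2
      · rw [h2] at h1
        rw [h2]
        have h3 : ((BX m n 0).filter (fun ks => ¬ Good ρ₀ lam Lam st ks)).card = 0 := by
          omega
        rw [h3]
        simp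
      · calc n * ((BX m n q).filter (fun ks => ¬ Good ρ₀ lam Lam st ks)).card ≤
            n * (q * d ^ 4 * n ^ (q - 1)) := Nat.mul_le_mul_left n h1
          _ = q * d ^ 4 * n ^ (q - 1 + 1) := by ring
          _ = q * d ^ 4 * n ^ q := by
            congr 2
            omega
    have hc5 := Nat.mul_le_mul_left n hc2
    have hc6 : (q + 1) * d ^ 4 * n ^ q = q * d ^ 4 * n ^ q + d ^ 4 * n ^ q := by ring
    have hc7 : n * (((BX m n q).filter (fun ks => ¬ Good ρ₀ lam Lam st ks)).card +
        (PR.biUnion Bd).card) = n * ((BX m n q).filter (fun ks => ¬ Good ρ₀ lam Lam st ks)).card +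
        n * (PR.biUnion Bd).card := by ring
    omega

end Pool.Agent.H66.RL
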