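import Pool.Agent.H66.RL.Def

/-!
# [H66 RL LAB] Blocks (45 min)

`isInv_step`: `Ys Y (s :: st) = {z ∈ Ys Y st | (1 + s.v) z ∈ Ys Y st}`: closed (preimage under a continuous
map, `Continuous.matrix_mul` or entrywise), invariant under units (associativity), and for
`a ∈ TT (lab (s :: st)) ⊆ TT (lab st)`: `diagonal a * (1 + s.v) = (1 + s.v) * diagonal a` because `a p = a l` for
`s.v p l ≠ 0` (`lab (s :: st) p = lab (s :: st) l`).

`card_lab`: the number of labels in use is `d - |st|`: induction; for `s :: st`: there are `p, l` with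
`s.v p l ≠ 0`, so both `s.r = lab st p` and `s.r' = lab st l` are in the image of `lab st`, and the image of
`lab (s :: st)` is that of `lab st` without `s.r'`.

`small_block`: if all nonempty blocks had at least `p = d.minFac` elements then
`d ≥ p * |image β|` (`Finset.card_eq_sum_card_image`), so `|image β| ≤ d / p`
(`Nat.le_div_iff_mul_le`).  So there is a label `r` in use whose block has less than `p` elements, and a
positive number less than the least prime factor of `d` is coprime to `d`.
-/

set_option autoImplicit false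

namespace Pool.Agent.H66.RL

open Matrix Filter Topology Pool.Agent.H89.CSD Pool.Agent.H46.RG

variable {d : ℕ}

theorem isInv_step {Y : Set (Matrix (Fin d) (Fin d) ℝ)} {s : Step d} {st : List (Step d)}
    (hv : Val (s :: st)) (h : IsInv (TT (lab st)) (Ys Y st)) (hne : (Ys Y (s :: st)).Nonempty) :
    IsInv (TT (lab (s :: st))) (Ys Y (s :: st)) := by
  obtain ⟨_, _, _, hvs⟩ := hv
  refine ⟨hne, ?_, ?_, ?_⟩
  · have h1 : Continuous fun z : Matrix (Fin d) (Fin d) ℝ => (1 + s.v) * z :=
      continuous_const.matrix_mul continuous_id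
    exact h.closed.inter (h.closed.preimage h1)
  · rintro z ⟨hz1, hz2⟩ γ hγ
    refine ⟨h.units z hz1 γ hγ, ?_⟩
    rw [← Matrix.mul_assoc]
    exact h.units _ hz2 γ hγ
  · rintro a ⟨ha1, ha2⟩ z ⟨hz1, hz2⟩
    have haT : a ∈ TT (lab st) := by
      refine ⟨ha1, fun i j hij => ha2 i j ?_⟩
      show mrg (lab st) s.r s.r' i = mrg (lab st) s.r s.r' j
      unfold mrg
      rw [hij]
    have hcomm : (1 + s.v) * diagonal a = diagonal a * (1 + s.v) := by
      rw [Matrix.add_mul, Matrix.mul_add, Matrix.one_mul, Matrix.mul_one]
      congr 1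
      ext p l
      rw [Matrix.mul_diagonal, Matrix.diagonal_mul]
      by_cases h0 : s.v p l = 0
      · rw [h0, zero_mul, mul_zero]
      · obtain ⟨hp, hl⟩ := hvs p l h0
        have : a p = a l := by
          apply ha2
          show mrg (lab st) s.r s.r' p = mrg (lab st) s.r s.r' l
          unfold mrg
          rw [hp, hl, if_pos rfl]
          split_ifs <;> rfl
        rw [this, mul_comm]
    refine ⟨h.diag a haT z hz1, ?_⟩
    rw [← Matrix.mul_assoc, hcomm, Matrix.mul_assoc]
    exact h.diag a haT _ hz2

theorem card_lab {st : List (Step d)} (hv : Val st) :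
    (Finset.univ.image (lab st)).card + st.length = d := by
  classical
  induction st with
  | nil =>
    have h1 : (lab ([] : List (Step d))) = fun i => i := rfl
    rw [h1, Finset.image_id', Finset.card_univ, Fintype.card_fin, List.length_nil, add_zero]
  | cons s st ih =>
    obtain ⟨hval, hrr, hv0, hvs⟩ := hv
    have ih := ih hval
    have hex : ∃ p l, s.v p l ≠ 0 := by
      by_contra h
      push Not at h
      apply hv0
      ext p l
      exact h p l
    obtain ⟨p, l, hpl⟩ := hex
    obtain ⟨hp, hl⟩ := hvs p l hpl
    have hr : s.r ∈ Finset.univ.image (lab st) := Finset.mem_image.2 ⟨p, Finset.mem_univ _, hp⟩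
    have hr' : s.r' ∈ Finset.univ.image (lab st) := Finset.mem_image.2 ⟨l, Finset.mem_univ _, hl⟩
    have himg : Finset.univ.image (lab (s :: st)) = (Finset.univ.image (lab st)).erase s.r' := by
      ext x
      rw [Finset.mem_erase, Finset.mem_image]
      constructor
      · rintro ⟨i, _, hi⟩
        have hi : mrg (lab st) s.r s.r' i = x := hi
        unfold mrg at hi
        split_ifs at hi with h1
        · rw [← hi]
          exact ⟨hrr, hr⟩
        · rw [← hi]
          exact ⟨h1, Finset.mem_image.2 ⟨i, Finset.mem_univ _, rfl⟩⟩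
      · rintro ⟨hx, hx2⟩
        obtain ⟨i, _, hi⟩ := Finset.mem_image.1 hx2
        refine ⟨i, Finset.mem_univ _, ?_⟩
        show mrg (lab st) s.r s.r' i = x
        unfold mrg
        rw [hi, if_neg hx]
    have h1 : 0 < (Finset.univ.image (lab st)).card := Finset.card_pos.2 ⟨_, hr⟩
    rw [himg, Finset.card_erase_of_mem hr', List.length_cons]
    omega

theorem small_block (hd : 2 ≤ d) {β : Fin d → Fin d}
    (h : d / d.minFac < (Finset.univ.image β).card) :
    ∃ r, (Finset.univ.filter fun i => β i = r).Nonempty ∧
      (Finset.univ.filter fun i => β i = r).card.Coprime d := by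
  by_contra hcon
  push Not at hcon
  have hge : ∀ r ∈ Finset.univ.image β,
      d.minFac ≤ (Finset.univ.filter fun i => β i = r).card := by
    intro r hr
    obtain ⟨i, _, hi⟩ := Finset.mem_image.1 hr
    have hne : (Finset.univ.filter fun i => β i = r).Nonempty :=
      ⟨i, Finset.mem_filter.2 ⟨Finset.mem_univ _, hi⟩⟩
    have h1 := hcon r hne
    set n := (Finset.univ.filter fun i => β i = r).card with hn
    have hn0 : 0 < n := Finset.card_pos.2 hne
    have hg0 : 0 < n.gcd d := Nat.gcd_pos_of_pos_left _ hn0
    have hg1 : n.gcd d ≠ 1 := h1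
    have h2 : d.minFac ≤ n.gcd d :=
      Nat.minFac_le_of_dvd (by omega) (Nat.gcd_dvd_right n d)
    exact h2.trans (Nat.le_of_dvd hn0 (Nat.gcd_dvd_left n d))
  have h1 := Finset.card_eq_sum_card_image β (Finset.univ : Finset (Fin d))
  rw [Finset.card_univ, Fintype.card_fin] at h1
  have h2 : (Finset.univ.image β).card * d.minFac ≤ d := by
    calc (Finset.univ.image β).card * d.minFac
        = ∑ _r ∈ Finset.univ.image β, d.minFac := by rw [Finset.sum_const, smul_eq_mul]
      _ ≤ ∑ r ∈ Finset.univ.image β, (Finset.univ.filter fun i => β i = r).card :=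
          Finset.sum_le_sum hge
      _ = d := h1.symm
  have h3 : (Finset.univ.image β).card ≤ d / d.minFac :=
    (Nat.le_div_iff_mul_le (Nat.minFac_pos d)).2 h2
  omega

end Pool.Agent.H66.RL
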