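import Pool.Agent.H66.RL.Isl
import Pool.Agent.H66.RL.Lb
import Pool.Agent.H46.RG.Sth

/-!
# [H66 RL TOW] Towers exist (45 min)

Induction on `q`.  `q = 0`: `st = []`, `TT (lab []) ⊆ A1`.  Step: `|image (lab st)| = d - q > d / p`
(`card_lab`), `small_block` gives the label `r` of a block `I` with `|I|` coprime to `d`.
`Flow I ⊆ TT (lab st)` (`flow I t i` depends only on whether `i ∈ I`; `flow_mem_A1`).  `block_shear` for
`Z = Ys Y st ⊆ Y ⊆ Om g` (`IsInv.mono`) gives `z`, `v ≠ 0`, `Blk I v`, `(1 + v) z ∈ Z`.  Take `p, l` with `v p l ≠ 0`,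
`r' = lab st l ≠ r` (`l ∉ I`), and `isolate`: `w`, `v'` (`v' p l = v p l ≠ 0`).  The new step is `⟨r, r', v'⟩`;
`isInv_step`.
-/

set_option autoImplicit false

namespace Pool.Agent.H66.RL

open Matrix Filter Topology Pool.Agent.H89.CSD Pool.Agent.H46.RG

variable {d : ℕ}

theorem Ys_subset (Y : Set (Matrix (Fin d) (Fin d) ℝ)) (st : List (Step d)) : Ys Y st ⊆ Y := by
  induction st with
  | nil => exact subset_rfl
  | cons s st ih => exact fun z hz => ih hz.1

theorem tower (hd : 3 ≤ d) {g : Matrix (Fin d) (Fin d) ℝ} (hg : g.det ≠ 0) {c : ℝ} (hc : 0 < c)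
    (hp : Pos c g) (hn : ¬ IntForm g) {Y : Set (Matrix (Fin d) (Fin d) ℝ)} (hY : Y ⊆ Om g)
    (hinv : IsInv (A1 d) Y) : ∀ q, q ≤ d - d / d.minFac → ∃ st : List (Step d),
      st.length = q ∧ Val st ∧ IsInv (TT (lab st)) (Ys Y st) := by
  classical
  intro q
  induction q with
  | zero =>
    intro _
    exact ⟨[], rfl, trivial, hinv.mono (TT_subset _)⟩
  | succ q ih =>
    intro hq
    obtain ⟨st, hlen, hval, hI⟩ := ih (by omega)
    have hcard := card_lab hval
    have hdiv : d / d.minFac ≤ d := Nat.div_le_self _ _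
    obtain ⟨r, _, hcop⟩ := small_block (d := d) (by omega) (β := lab st) (by omega)
    set I : Finset (Fin d) := Finset.univ.filter fun i => lab st i = r with hIdef
    have hmem : ∀ i, i ∈ I ↔ lab st i = r := by
      intro i
      simp [hIdef]
    have hsub : Ys Y st ⊆ Om g := (Ys_subset Y st).trans hY
    have hflow : H46.RG.Flow I ⊆ TT (lab st) := by
      rintro _ ⟨t, rfl⟩
      refine ⟨flow_mem_A1 I t, fun i j hij => ?_⟩
      unfold flow
      have : i ∈ I ↔ j ∈ I := by rw [hmem, hmem, hij]
      simp only [this]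
    obtain ⟨z, hz, v, hv0, hblk, hz'⟩ := block_shear hd hg hc hp hn I hcop hsub (hI.mono hflow)
    have hex : ∃ p l, v p l ≠ 0 := by
      by_contra h
      push Not at h
      apply hv0
      ext p l
      exact h p l
    obtain ⟨p, l, hpl⟩ := hex
    have hpl' := hblk p l hpl
    have hv : ∀ p l, v p l ≠ 0 → lab st p = r ∧ lab st l ≠ r := by
      intro p l h
      have h1 := hblk p l h
      exact ⟨(hmem p).1 h1.1, fun h2 => h1.2 ((hmem l).2 h2)⟩
    obtain ⟨w, hw, hw'⟩ := isolate hg hc hp (lab st) hsub hI hz hz' (r := r) (r' := lab st l)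
      (fun h => (hv p l hpl).2 h.symm) hv
    refine ⟨⟨r, lab st l, Matrix.of fun p' l' => if lab st l' = lab st l then v p' l' else 0⟩ :: st,
      ?_, ?_, ?_⟩
    · rw [List.length_cons, hlen]
    · refine ⟨hval, fun h => (hv p l hpl).2 h.symm, ?_, ?_⟩
      · intro h
        have h1 := congrFun (congrFun h p) l
        simp only [Matrix.of_apply, if_true, Matrix.zero_apply] at h1
        exact hpl h1
      · intro p' l' h
        simp only [Matrix.of_apply] at h
        by_cases h1 : lab st l' = lab st l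
        · rw [if_pos h1] at h
          exact ⟨(hv p' l' h).1, h1⟩
        · rw [if_neg h1] at h
          exact absurd rfl h
    · refine isInv_step ?_ hI ⟨w, hw, hw'⟩
      refine ⟨hval, fun h => (hv p l hpl).2 h.symm, ?_, ?_⟩
      · intro h
        have h1 := congrFun (congrFun h p) l
        simp only [Matrix.of_apply, if_true, Matrix.zero_apply] at h1
        exact hpl h1
      · intro p' l' h
        simp only [Matrix.of_apply] at h
        by_cases h1 : lab st l' = lab st l
        · rw [if_pos h1] at h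
          exact ⟨(hv p' l' h).1, h1⟩
        · rw [if_neg h1] at h
          exact absurd rfl h

end Pool.Agent.H66.RL
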