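import Pool.Agent.H66.RL.Twv

/-!
# [H66 RL TREE] The tree of values (30 min)

Induction on `st` (for all `ks`, `z`, `B`).  `st = []`: `ks = []` (`Fit`), `z ∈ Y`, and
`|P z (ic x)| = ∏ (|(z x) p| exp (α p)) ≤ B ^ d ≤ BB ^ d` (`∑ α = 0`).
`st = s :: st'`, `ks = k :: ks'`: `z, z' = (1 + s.v) * z ∈ Ys Y st'`; `z' *ᵥ ic x = (1 + s.v) *ᵥ (z *ᵥ ic x)`.  `two_v` with
this `B ≤ BB` (the hypotheses on `Lam` and `rho = ρ₀ lam ^ k ≤ ρ₀` follow from those for `BB`) gives the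
bounds for `z'` with `2 B`, and `2 B * 2 ^ |st'| = B * 2 ^ |st| ≤ BB`; so the hypothesis gives
trees for `z` and for `z'` with the list `ks'`.  The distance of the roots: `two_v` with
`1 / (4 BB ^ (d + 2)) ≤ 1 / (4 B ^ (d + 2))` and `2 B ^ (d + 2) ≤ 2 BB ^ (d + 2)` (or apply `two_v` with `BB` in
the place of `B` for the distance).
-/

set_option autoImplicit false

namespace Pool.Agent.H66.RL

open Matrix Filter Topology Pool.Agent.H89.CSD Pool.Agent.H46.RG

variable {d : ℕ}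

theorem tree {ρ₀ lam Lam BB : ℝ} (hρ : 0 < ρ₀) (hlam : 0 < lam) (hlam1 : lam ≤ 1)
    (hL : 8 * (d : ℝ) ^ 2 * BB ^ 4 ≤ Lam) (hρ₀ : ρ₀ ≤ 1 / (8 * BB ^ 6))
    {Y : Set (Matrix (Fin d) (Fin d) ℝ)} {α : Fin d → ℝ} (hα : ∑ i, α i = 0)
    {x : Fin d → ℤ} (hx : x ≠ 0) :
    ∀ (st : List (Step d)) (ks : List ℕ) (B : ℝ) (z : Matrix (Fin d) (Fin d) ℝ), 1 ≤ B →
      B * 2 ^ st.length ≤ BB → z ∈ Ys Y st → Fit ρ₀ lam Lam st ks α →
      (∀ p, B⁻¹ ≤ |(z *ᵥ ic x) p| * Real.exp (α p) ∧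
        |(z *ᵥ ic x) p| * Real.exp (α p) ≤ B) →
      Tr (1 / (4 * BB ^ (d + 2)) * ρ₀) (2 * BB ^ (d + 2) * ρ₀) lam (Vb Y (BB ^ d)) ks
        (P z (ic x)) := by
  intro st
  induction st with
  | nil =>
    intro ks B z hB hBB hz hfit hy
    cases ks with
    | cons k ks => exact absurd hfit (by simp [Fit])
    | nil =>
      rw [List.length_nil, pow_zero, mul_one] at hBB
      refine ⟨z, hz, x, hx, rfl, ?_⟩
      have h1 : |P z (ic x)| = ∏ p, (|(z *ᵥ ic x) p| * Real.exp (α p)) := by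
        rw [P_eq, Finset.abs_prod, Finset.prod_mul_distrib, ← Real.exp_sum, hα, Real.exp_zero,
          mul_one]
      rw [h1]
      calc ∏ p, (|(z *ᵥ ic x) p| * Real.exp (α p)) ≤ ∏ _p : Fin d, BB := by
            refine Finset.prod_le_prod (fun p _ => by positivity) fun p _ => ?_
            exact (hy p).2.trans hBB
        _ = BB ^ d := by rw [Finset.prod_const, Finset.card_univ, Fintype.card_fin]
  | cons s st ih =>
    intro ks B z hB hBB hz hfit hy
    cases ks with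
    | nil => exact absurd hfit (by simp [Fit])
    | cons k ks =>
      obtain ⟨hrho, hdom, hfit'⟩ := hfit
      rw [List.length_cons, pow_succ] at hBB
      have hp2 : (1 : ℝ) ≤ 2 ^ st.length := one_le_pow₀ (by norm_num)
      have hB0 : 0 < B := by linarith
      have hBle : B ≤ BB := by nlinarith
      have hBle' : B * 2 ^ st.length ≤ BB := by nlinarith
      have hBB1 : 1 ≤ BB := hB.trans hBle
      have hrhole : rho s.v α ≤ ρ₀ := by
        rw [hrho]
        have := pow_le_one₀ hlam.le hlam1 (n := k)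
        nlinarith
      have hyy : ∀ p, BB⁻¹ ≤ |(z *ᵥ ic x) p| * Real.exp (α p) ∧
          |(z *ᵥ ic x) p| * Real.exp (α p) ≤ BB := fun p =>
        ⟨(inv_anti₀ hB0 hBle).trans (hy p).1, (hy p).2.trans hBle⟩
      have hLB : 8 * (d : ℝ) ^ 2 * B ^ 4 ≤ Lam := by
        refine le_trans ?_ hL
        gcongr
      have hρB : ρ₀ ≤ 1 / (8 * B ^ 6) := by
        refine hρ₀.trans ?_
        gcongr
      obtain ⟨h1, _, _⟩ := two_v hB hα hy hLB hdom (hrhole.trans hρB)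
      obtain ⟨_, h2, h3⟩ := two_v hBB1 hα hyy hL hdom (hrhole.trans hρ₀)
      have hz' : ((1 + s.v) * z) *ᵥ ic x = (1 + s.v) *ᵥ (z *ᵥ ic x) := by
        rw [Matrix.mulVec_mulVec]
      refine ⟨ih ks B z hB hBle' hz.1 hfit' hy, P ((1 + s.v) * z) (ic x),
        ih ks (2 * B) ((1 + s.v) * z) (by linarith) (by nlinarith) hz.2 hfit'
          (by rw [hz']; exact h1), ?_, ?_⟩
      · rw [P_eq, P_eq, hz', mul_assoc, ← hrho]
        exact h2
      · rw [P_eq, P_eq, hz', mul_assoc (2 * BB ^ (d + 2)), ← hrho]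
        exact h3

end Pool.Agent.H66.RL
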