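import Pool.Agent.H66.RL.Cnt
import Pool.Agent.H66.RL.Gd
import Pool.Agent.H66.RL.Ft
import Pool.Agent.H66.RL.Tree
import Pool.Agent.H66.RL.Tow
import Pool.Agent.H66.RL.Fx
import Pool.Agent.H66.RL.Apx

/-!
# [H66 RL MAIN] The count for determinant one
-/

set_option autoImplicit false

namespace Pool.Agent.H66.RL

open Matrix Filter Topology Pool.Agent.H89.CSD Pool.Agent.H46.RG

variable {d : ℕ}

theorem main_count (hd : 3 ≤ d) {c : ℝ} (hc : 0 < c) :
    ∃ R κ lam : ℝ, 1 ≤ R ∧ 0 < κ ∧ 0 < lam ∧ lam < 1 ∧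
      ∀ g : Matrix (Fin d) (Fin d) ℝ, |g.det| = 1 → Pos c g → ¬ IntForm g → ∀ n : ℕ,
        ∃ T : Finset (Fin d → ℤ),
          n ^ (d - d / d.minFac) ≤ T.card +
            (d - d / d.minFac) * d ^ 4 * n ^ (d - d / d.minFac - 1) ∧
          (∀ x ∈ T, x ≠ 0 ∧ |P g (ic x)| ≤ R) ∧
          ∀ x ∈ T, ∀ y ∈ T, x ≠ y →
            κ * lam ^ ((d - d / d.minFac) * n) ≤ |P g (ic x) - P g (ic y)| := by
  classical
  obtain ⟨B, hB, hfx⟩ := find_x (d := d) (by omega) hc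
  set m : ℕ := d - d / d.minFac with hm
  set BB : ℝ := B * 2 ^ m with hBB
  have hBB1 : 1 ≤ BB := by
    have h2 : (1 : ℝ) ≤ 2 ^ m := one_le_pow₀ (by norm_num)
    nlinarith
  have hBB0 : 0 < BB := by linarith
  set ρ₀ : ℝ := 1 / (8 * BB ^ 6) with hρ₀
  have hρ : 0 < ρ₀ := by positivity
  set Lam : ℝ := 8 * (d : ℝ) ^ 2 * BB ^ 4 with hLam
  have hd3 : (3 : ℝ) ≤ d := by exact_mod_cast hd
  have hLam1 : 1 < Lam := by
    have h2 : (1 : ℝ) ≤ BB ^ 4 := one_le_pow₀ hBB1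
    have h3 : (9 : ℝ) ≤ (d : ℝ) ^ 2 := by nlinarith
    nlinarith
  set C : ℝ := 2 * BB ^ (d + 2) * ρ₀ with hC
  set cc : ℝ := 1 / (4 * BB ^ (d + 2)) * ρ₀ with hcc
  have hC0 : 0 < C := by positivity
  have hcc0 : 0 < cc := by positivity
  have hccC : cc ≤ C := by
    rw [hcc, hC]
    have h2 : (1 : ℝ) ≤ BB ^ (d + 2) := one_le_pow₀ hBB1
    apply mul_le_mul_of_nonneg_right _ hρ.le
    rw [div_le_iff₀ (by positivity)]
    nlinarith
  set lam : ℝ := min (cc / (8 * C)) (1 / Lam ^ 2) with hlam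
  have hlam0 : 0 < lam := lt_min (by positivity) (by positivity)
  have hlam1 : lam < 1 := by
    refine (min_le_right _ _).trans_lt ?_
    rw [div_lt_one (by positivity)]
    nlinarith
  have hW : 2 * Real.log Lam ≤ Real.log (1 / lam) := by
    have h2 : Lam ^ 2 ≤ 1 / lam := by
      rw [le_div_iff₀ hlam0]
      have h3 : lam ≤ 1 / Lam ^ 2 := min_le_right _ _
      calc Lam ^ 2 * lam ≤ Lam ^ 2 * (1 / Lam ^ 2) := by gcongr
        _ = 1 := by field_simp
    have h4 : Real.log (Lam ^ 2) ≤ Real.log (1 / lam) :=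
      Real.log_le_log (by positivity) h2
    rw [Real.log_pow] at h4
    exact_mod_cast h4
  refine ⟨BB ^ d + 1, 2 * C, lam, by have := pow_pos hBB0 d; linarith, by positivity, hlam0,
    hlam1, ?_⟩
  intro g hg hp hn n
  have hg0 : g.det ≠ 0 := by
    intro h0
    rw [h0, abs_zero] at hg
    exact zero_ne_one hg
  obtain ⟨hinv, hYO⟩ := isInv_pos g
  obtain ⟨st, hst, hval, hIn⟩ := tower hd hg0 hc hp hn hYO hinv m le_rfl
  have hgc := good_count hρ hlam0 hW m n hval (by omega)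
  rw [hst] at hgc
  obtain ⟨z, hz⟩ := hIn.nonempty
  have hzY := Ys_subset _ _ hz
  obtain ⟨T, hTV, hTc, hTs⟩ := count hcc0 hccC hlam0 (min_le_left _ _) m (m * n)
    (Vb (closure (Orb (A1 d) g)) (BB ^ d)) ((BX m n m).filter (Good ρ₀ lam Lam st)) (by
      intro l hl
      obtain ⟨hl1, hl2⟩ := Finset.mem_filter.1 hl
      obtain ⟨h1, h2, h3⟩ := BX_prop le_rfl hl1
      refine ⟨h1, h2, fun k hk => (h3 k hk).2, ?_⟩
      obtain ⟨α, hα, hfit⟩ := fit_zero (by omega) hρ hlam0 hval (h1.trans hst.symm) hl2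
      have haA : (fun i => Real.exp (α i)) ∈ A1 d :=
        ⟨fun i => Real.exp_pos _, by rw [← Real.exp_sum, hα, Real.exp_zero]⟩
      have hhY := hinv.diag _ haA z hzY
      have hhO := hYO hhY
      obtain ⟨x, hx0, hx⟩ := hfx _ (hhO.2.trans hg) (Om_pos hg0 hc hp hhO)
      refine ⟨P z (ic x), tree hρ hlam0 hlam1.le le_rfl le_rfl hα hx0 st l B z hB
        (by rw [hst]) hz hfit fun p => ?_⟩
      have h4 : ((diagonal fun i => Real.exp (α i)) * z) *ᵥ ic x =
          fun p => Real.exp (α p) * (z *ᵥ ic x) p := by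
        rw [← Matrix.mulVec_mulVec]
        ext p
        rw [Matrix.mulVec_diagonal]
      have h5 := hx p
      rw [h4] at h5
      simp only [abs_mul, abs_of_pos (Real.exp_pos _)] at h5
      rw [mul_comm (Real.exp (α p))] at h5
      exact h5)
  obtain ⟨T', hT'c, hT'R, hT's⟩ := approx (η := 2 * C * lam ^ (m * n)) subset_rfl hTV
    (by positivity) (fun x hx y hy hxy => by
      have := hTs x hx y hy hxy
      linarith)
  refine ⟨T', ?_, hT'R, hT's⟩
  rw [hT'c]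
  omega

end Pool.Agent.H66.RL
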