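import Pool.Agent.H66.RL.Log

/-!
# [H66 RL LOGP] General determinant (40 min)

Apply `log_one` to `t • g`, `t = |det g| ^ (-1 / d)` (real power; `t > 0`): `P (t • g) x = t ^ d * P g x`,
`t ^ d = |det g|⁻¹`, `|det (t • g)| = t ^ d |det g| = 1`; `Pos c (t • g)` from the hypothesis; if `t • g` is integral
then so is `g` (`IntForm`, in H89/CSD/IntForm: multiply the factor).
-/

set_option autoImplicit false

namespace Pool.Agent.H66.RL

open Matrix Filter Topology Pool.Agent.H89.CSD Pool.Agent.H46.RG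

variable {d : ℕ}

private theorem lgp_P_smul (t : ℝ) (g : Matrix (Fin d) (Fin d) ℝ) (x : Fin d → ℝ) :
    P (t • g) x = t ^ d * P g x := by
  unfold P
  have h1 : ∀ i : Fin d, ∑ j, (t • g) i j * x j = t * ∑ j, g i j * x j := by
    intro i
    rw [Finset.mul_sum]
    refine Finset.sum_congr rfl fun j _ => ?_
    rw [Matrix.smul_apply, smul_eq_mul, mul_assoc]
  simp_rw [h1]
  rw [Finset.prod_mul_distrib, Finset.prod_const, Finset.card_univ, Fintype.card_fin]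

private theorem lgp_intForm {t : ℝ} (ht : t ≠ 0) {g : Matrix (Fin d) (Fin d) ℝ}
    (h : IntForm (t • g)) : IntForm g := by
  obtain ⟨c, hc, hz⟩ := h
  refine ⟨c * t ^ d, mul_ne_zero hc (pow_ne_zero _ ht), fun m => ?_⟩
  obtain ⟨z, hz⟩ := hz m
  refine ⟨z, ?_⟩
  rw [← hz]
  congr 1
  have h1 : ∀ i : Fin d, (∑ j : Fin d, MvPolynomial.C ((t • g) i j) * MvPolynomial.X j :
      MvPolynomial (Fin d) ℝ) = MvPolynomial.C t * ∑ j : Fin d,
        MvPolynomial.C (g i j) * MvPolynomial.X j := by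
    intro i
    rw [Finset.mul_sum]
    refine Finset.sum_congr rfl fun j _ => ?_
    rw [Matrix.smul_apply, smul_eq_mul, MvPolynomial.C_mul, mul_assoc]
  simp_rw [h1]
  rw [Finset.prod_mul_distrib, Finset.prod_const, Finset.card_univ, Fintype.card_fin,
    ← MvPolynomial.C_pow, mul_smul]
  congr 1
  rw [MvPolynomial.smul_eq_C_mul]

theorem log_pow (hd : 3 ≤ d) {c : ℝ} (hc : 0 < c) :
    ∃ R κ : ℝ, 1 ≤ R ∧ 0 < κ ∧ ∀ g : Matrix (Fin d) (Fin d) ℝ, g.det ≠ 0 →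
      (∀ x : Fin d → ℤ, x ≠ 0 → c * |g.det| ≤ |P g (ic x)|) →
      ¬ IntForm g → ∀ ε : ℝ, 0 < ε → ε < 1 → ∃ T : Finset (Fin d → ℤ),
        κ * Real.log (1 / ε) ^ (d - d / d.minFac) ≤ T.card ∧
        (∀ x ∈ T, x ≠ 0 ∧ |P g (ic x)| ≤ R * |g.det|) ∧
        ∀ x ∈ T, ∀ y ∈ T, x ≠ y → ε * |g.det| ≤ |P g (ic x) - P g (ic y)| := by
  obtain ⟨R, κ, hR, hκ, hmain⟩ := log_one hd hc
  refine ⟨R, κ, hR, hκ, fun g hg hpos hn ε hε hε1 => ?_⟩
  have hD : 0 < |g.det| := abs_pos.2 hg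
  set t : ℝ := |g.det|⁻¹ ^ ((d : ℝ)⁻¹) with ht
  have hd0 : d ≠ 0 := by omega
  have ht0 : 0 < t := Real.rpow_pos_of_pos (inv_pos.2 hD) _
  have htd : t ^ d = |g.det|⁻¹ := Real.rpow_inv_natCast_pow (inv_pos.2 hD).le hd0
  have hP : ∀ x : Fin d → ℝ, P (t • g) x = |g.det|⁻¹ * P g x := by
    intro x
    rw [lgp_P_smul, htd]
  have hdet : |(t • g).det| = 1 := by
    rw [Matrix.det_smul, Fintype.card_fin, htd, abs_mul, abs_inv, abs_abs,
      inv_mul_cancel₀ hD.ne']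
  have habs : ∀ y : ℝ, |(|g.det|⁻¹ * y)| = |y| / |g.det| := by
    intro y
    rw [abs_mul, abs_inv, abs_abs, div_eq_inv_mul]
  have hpos' : Pos c (t • g) := by
    intro x hx
    rw [hP, habs, le_div_iff₀ hD]
    exact hpos x hx
  obtain ⟨T, hT1, hT2, hT3⟩ := hmain (t • g) hdet hpos' (fun h => hn (lgp_intForm ht0.ne' h)) ε
    hε hε1
  refine ⟨T, hT1, fun x hx => ⟨(hT2 x hx).1, ?_⟩, fun x hx y hy hxy => ?_⟩
  · have h := (hT2 x hx).2
    rwa [hP, habs, div_le_iff₀ hD] at h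
  · have h := hT3 x hx y hy hxy
    rwa [hP, hP, ← mul_sub, habs, le_div_iff₀ hD] at h

end Pool.Agent.H66.RL
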