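import Pool.Agent.H66.RL.Def

/-!
# [H66 RL BXC] The box of lists (20 min)

`card_BX`: induction on `q`; the map `(k, ks) ↦ k :: ks` is injective, the interval
`[(m - 1 - q) n, (m - q) n)` has `n` elements for `q < m` (`m - q = (m - 1 - q) + 1`).
`BX_prop`: induction on `q` with `mem_BX_succ`; for `q + 1 ≤ m` and `l = k :: ks` the entries of `ks` are
`≥ (m - q) n > k`, and `k ≥ (m - (q + 1)) n`, `k < (m - q) n ≤ m n`.
-/

set_option autoImplicit false

namespace Pool.Agent.H66.RL

private theorem bxc_sub {m q : ℕ} (hq : q + 1 ≤ m) : m - q = (m - 1 - q) + 1 := by omega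

theorem card_BX {m n q : ℕ} (hq : q ≤ m) : (BX m n q).card = n ^ q := by
  induction q with
  | zero => simp [BX]
  | succ q ih =>
    have hinj : Function.Injective (fun x : ℕ × List ℕ => x.1 :: x.2) := by
      rintro ⟨a, l⟩ ⟨b, l'⟩ h
      simp only [List.cons.injEq] at h
      exact Prod.ext h.1 h.2
    rw [BX, Finset.card_image_of_injective _ hinj, Finset.card_product, ih (by omega),
      Nat.card_Ico, bxc_sub hq, Nat.add_mul, one_mul, Nat.add_sub_cancel_left, pow_succ, mul_comm]

theorem BX_prop {m n q : ℕ} (hq : q ≤ m) {l : List ℕ} (hl : l ∈ BX m n q) :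
    l.length = q ∧ l.Pairwise (· < ·) ∧ ∀ k ∈ l, (m - q) * n ≤ k ∧ k < m * n := by
  induction q generalizing l with
  | zero =>
    have h : l = [] := by simpa [BX] using hl
    subst h
    simp
  | succ q ih =>
    obtain ⟨k, ks, rfl, h1, h2, h3⟩ := mem_BX_succ.1 hl
    obtain ⟨i1, i2, i3⟩ := ih (by omega) h3
    have e1 : m - (q + 1) = m - 1 - q := by omega
    have h4 : (m - 1 - q) * n ≤ (m - q) * n := Nat.mul_le_mul_right _ (by omega)
    have h5 : (m - q) * n ≤ m * n := Nat.mul_le_mul_right _ (by omega)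
    refine ⟨by simp [i1], ?_, ?_⟩
    · rw [List.pairwise_cons]
      exact ⟨fun a ha => lt_of_lt_of_le h2 (i3 a ha).1, i2⟩
    · intro a ha
      rw [e1]
      rcases List.mem_cons.1 ha with rfl | ha
      · exact ⟨h1, lt_of_lt_of_le h2 h5⟩
      · exact ⟨le_trans h4 (i3 a ha).1, (i3 a ha).2⟩

end Pool.Agent.H66.RL
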