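import Pool.Agent.H66.RL.TrA

/-!
# [H66 RL CNT] Counting separated points (60 min)

Induction on `m`.  `m = 0`: `A` is empty (`T = ∅`) or contains only `[]`, and the root of its tree is in `V`
(`T = {w}`).

`m + 1`: induction on `K` (for all `A`).  `K = 0`: a list of length `m + 1` has an entry `< 0`, so `A` is
empty.  `K + 1`: let `A₁` be the lists in `A` with all entries `< K` and `A₂` the others; a list in `A₂` is
increasing with entries `< K + 1`, so it is `ks ++ [K]` with `ks` increasing of length `m` with entries
`< K` (`List.eq_nil_or_concat` / `List.dropLast_append_getLast`; an increasing list whose entries are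
`≤ K` and which contains `K` ends with `K`).  The hypothesis for `K` gives `T₁ ⊆ V` for `A₁`, pairwise
distances `≥ 4 C lam ^ K`.  Let `B = A₂.image List.dropLast` (`dropLast` is injective on `A₂`, so
`|B| = |A₂|`) and `V' = {x | Tr c C lam V [K] x}`: the hypothesis for `m`, the number `K`, the set `V'` and `B`
(`Tr_append`) gives `P ⊆ V'` with `|P| ≥ |B|` and pairwise distances `≥ 4 C lam ^ K`.  `add_pts` for
`r = lam ^ K` gives `T'` with `|T'| ≥ |A₁| + |A₂| = |A|` and pairwise distances
`≥ c / 2 * lam ^ K ≥ 4 * C * lam ^ (K + 1)` (from `lam ≤ c / (8 * C)`).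
-/

set_option autoImplicit false

namespace Pool.Agent.H66.RL

theorem count {c C lam : ℝ} (hc : 0 < c) (hC : c ≤ C) (hl : 0 < lam) (hl' : lam ≤ c / (8 * C))
    (m : ℕ) : ∀ (K : ℕ) (V : Set ℝ) (A : Finset (List ℕ)),
      (∀ l ∈ A, l.length = m ∧ l.Pairwise (· < ·) ∧ (∀ k ∈ l, k < K) ∧ ∃ w, Tr c C lam V l w) →
      ∃ T : Finset ℝ, (∀ x ∈ T, x ∈ V) ∧ A.card ≤ T.card ∧
        ∀ x ∈ T, ∀ y ∈ T, x ≠ y → 4 * C * lam ^ K ≤ |x - y| := by
  classical
  have hC0 : 0 < C := hc.trans_le hC
  induction m with
  | zero =>
    intro K V A hA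
    rcases A.eq_empty_or_nonempty with rfl | ⟨l, hlA⟩
    · exact ⟨∅, by simp, by simp, by simp⟩
    · obtain ⟨h1, _, _, w, hw⟩ := hA l hlA
      have hl0 : l = [] := List.length_eq_zero_iff.1 h1
      subst hl0
      refine ⟨{w}, ?_, ?_, ?_⟩
      · intro x hx
        rw [Finset.mem_singleton.1 hx]
        exact hw
      · rw [Finset.card_singleton, Finset.card_le_one]
        intro a ha b hb
        rw [List.length_eq_zero_iff.1 (hA a ha).1, List.length_eq_zero_iff.1 (hA b hb).1]
      · intro x hx y hy hxy
        exact absurd ((Finset.mem_singleton.1 hx).trans (Finset.mem_singleton.1 hy).symm) hxy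
  | succ m ihm =>
    intro K
    induction K with
    | zero =>
      intro V A hA
      refine ⟨∅, by simp, ?_, by simp⟩
      rw [Finset.card_empty, Nat.le_zero, Finset.card_eq_zero, Finset.eq_empty_iff_forall_notMem]
      intro l hlA
      obtain ⟨h1, _, h3, _⟩ := hA l hlA
      have hne : l ≠ [] := by
        intro h0
        rw [h0] at h1
        simp at h1
      exact absurd (h3 _ (List.head_mem hne)) (Nat.not_lt_zero _)
    | succ K ihK =>
      intro V A hA
      -- the lists with all entries < K
      have hlast : ∀ l ∈ A, (¬ ∀ k ∈ l, k < K) → l = l.dropLast ++ [K] := by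
        intro l hlA hnot
        obtain ⟨h1, h2, h3, _⟩ := hA l hlA
        have hne : l ≠ [] := by
          intro h0
          rw [h0] at h1
          simp at h1
        have h4 := List.dropLast_append_getLast hne
        have h5 : l.getLast hne = K := by
          push Not at hnot
          obtain ⟨k, hk, hkK⟩ := hnot
          have h6 : l.getLast hne < K + 1 := h3 _ (List.getLast_mem hne)
          have h7 : k ≤ l.getLast hne := by
            rw [← h4] at hk h2
            rcases List.mem_append.1 hk with h8 | h8
            · exact (List.pairwise_append.1 h2).2.2 k h8 _ (List.mem_singleton.2 rfl) |>.le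
            · exact (List.mem_singleton.1 h8).le
          omega
        rw [h5] at h4
        exact h4.symm
      set A₁ := A.filter (fun l => ∀ k ∈ l, k < K) with hA₁
      set A₂ := A.filter (fun l => ¬ ∀ k ∈ l, k < K) with hA₂
      have hcard : A₁.card + A₂.card = A.card := Finset.card_filter_add_card_filter_not _
      obtain ⟨T₁, hT₁V, hT₁c, hT₁s⟩ := ihK V A₁ (by
        intro l hl1
        obtain ⟨h1, h2⟩ := Finset.mem_filter.1 hl1
        obtain ⟨h3, h4, _, h6⟩ := hA l h1
        exact ⟨h3, h4, h2, h6⟩)
      obtain ⟨P, hPV, hPc, hPs⟩ := ihm K {x | Tr c C lam V [K] x} (A₂.image List.dropLast) (by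
        intro l hl1
        obtain ⟨l', hl', rfl⟩ := Finset.mem_image.1 hl1
        obtain ⟨h1, h2⟩ := Finset.mem_filter.1 hl'
        obtain ⟨h3, h4, h5, w, hw⟩ := hA l' h1
        have h6 := hlast l' h1 h2
        rw [h6] at h4
        have h7 := List.pairwise_append.1 h4
        refine ⟨by rw [List.length_dropLast, h3]; rfl, h7.1, fun k hk =>
          h7.2.2 k hk _ (List.mem_singleton.2 rfl), w, ?_⟩
        rw [← Tr_append, ← h6]
        exact hw)
      have hinj : Set.InjOn List.dropLast (A₂ : Set (List ℕ)) := by
        intro l hl1 l' hl2 he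
        obtain ⟨h1, h2⟩ := Finset.mem_filter.1 (Finset.mem_coe.1 hl1)
        obtain ⟨h3, h4⟩ := Finset.mem_filter.1 (Finset.mem_coe.1 hl2)
        rw [hlast l h1 h2, hlast l' h3 h4, he]
      rw [Finset.card_image_of_injOn hinj] at hPc
      obtain ⟨T', hT'V, hT'c, hT's⟩ := add_pts hc hC (pow_pos hl K) hT₁V hT₁s
        (fun p hp => by
          have h1 : Tr c C lam V [K] p := hPV p hp
          obtain ⟨h2, w', h3, h4, h5⟩ := h1
          exact ⟨h2, w', h3, h4, h5⟩) hPs
      refine ⟨T', hT'V, by omega, fun x hx y hy hxy => ?_⟩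
      refine le_trans ?_ (hT's x hx y hy hxy)
      have h8 : 8 * C * lam ≤ c := by
        rw [le_div_iff₀ (by positivity)] at hl'
        linarith
      have h9 := pow_pos hl K
      rw [pow_succ]
      nlinarith

end Pool.Agent.H66.RL
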