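import Pool.Agent.H46.RG.Comp
import Pool.Agent.H66.RL.Def

/-!
# [H66 RL ISL] Isolating a pair of blocks (45 min)

Let `z, (1 + v) z ∈ Z`, `Z` invariant under the positive diagonal matrices which are constant on the
blocks of `β`, `v p l ≠ 0 → β p = r, β l ≠ r`, and let `r' ≠ r` be a label with `v p l ≠ 0` for some `l` with
`β l = r'`.  Let `v'` be the part of `v` in the columns `l` with `β l = r'`.  Then there is `w ∈ Z` with
`(1 + v') w ∈ Z`.

Proof (compare `purify` in H46/RG/Pur).  Let `x i = 0` if `β i = r` or `β i = r'` and `x i = 1` otherwise, `μ` the mean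
of `x`, `a n i = exp (n (x i - μ))`, which is in `TT β` (product `exp 0 = 1`; `d ≥ 1` because there is an index).
`diagonal (a n) * (1 + v) = (1 + v n) * diagonal (a n)` with `v n p l = (a n p / a n l) * v p l`.  For `β l = r'` (and
`v p l ≠ 0`, so `β p = r`) this is `v p l`; for the other `l` with `v p l ≠ 0` it is `exp (- n) v p l → 0`.  So
`v n → v'`.  `subseq` applied to `diagonal (a n) * z ∈ Z` gives `w ∈ Z`, a subsequence `φ` and units `U n` with
`diagonal (a (φ n)) * z * im (U n) → w`; the matrices
`(1 + v (φ n)) * (diagonal (a (φ n)) * z * im (U n)) = diagonal (a (φ n)) * ((1 + v) * z) * im (U n)` are in `Z` and tend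
to `(1 + v') * w`; `Z` is closed.
-/

set_option autoImplicit false

namespace Pool.Agent.H66.RL

open Matrix Filter Topology Pool.Agent.H89.CSD Pool.Agent.H46.RG

variable {d : ℕ}

theorem isolate {g : Matrix (Fin d) (Fin d) ℝ} (hg : g.det ≠ 0) {c : ℝ} (hc : 0 < c)
    (hp : Pos c g) (β : Fin d → Fin d) {Z : Set (Matrix (Fin d) (Fin d) ℝ)} (hZ : Z ⊆ Om g)
    (hinv : IsInv (TT β) Z) {z v : Matrix (Fin d) (Fin d) ℝ} (hz : z ∈ Z)
    (hz' : (1 + v) * z ∈ Z) {r r' : Fin d} (hr : r ≠ r')
    (hv : ∀ p l, v p l ≠ 0 → β p = r ∧ β l ≠ r) :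
    ∃ w ∈ Z, (1 + Matrix.of fun p l => if β l = r' then v p l else 0) * w ∈ Z := by
  classical
  have hd : 0 < d := Fin.pos r
  have hd' : (0 : ℝ) < d := by exact_mod_cast hd
  set x : Fin d → ℝ := fun i => if β i = r ∨ β i = r' then 0 else 1 with hx
  set μ : ℝ := (∑ i, x i) / d with hμ
  set a : ℕ → Fin d → ℝ := fun n i => Real.exp (n * (x i - μ)) with ha
  have ha0 : ∀ n i, 0 < a n i := fun n i => Real.exp_pos _
  have haT : ∀ n, a n ∈ TT β := by
    intro n
    refine ⟨⟨ha0 n, ?_⟩, ?_⟩
    · show ∏ i, Real.exp (n * (x i - μ)) = 1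
      rw [← Real.exp_sum, ← Finset.mul_sum, Finset.sum_sub_distrib, Finset.sum_const,
        Finset.card_univ, Fintype.card_fin, nsmul_eq_mul, hμ, mul_div_cancel₀ _ hd'.ne',
        sub_self, mul_zero, Real.exp_zero]
    · intro i j hij
      show Real.exp (n * (x i - μ)) = Real.exp (n * (x j - μ))
      have : x i = x j := by simp only [hx, hij]
      rw [this]
  set v' : Matrix (Fin d) (Fin d) ℝ := Matrix.of fun p l => if β l = r' then v p l else 0
    with hv'
  set V : ℕ → Matrix (Fin d) (Fin d) ℝ := fun n => Matrix.of fun p l => a n p / a n l * v p l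
    with hV
  have hcomm : ∀ n, diagonal (a n) * (1 + v) = (1 + V n) * diagonal (a n) := by
    intro n
    rw [Matrix.mul_add, Matrix.add_mul, Matrix.mul_one, Matrix.one_mul]
    congr 1
    ext p l
    rw [Matrix.diagonal_mul, Matrix.mul_diagonal]
    show a n p * v p l = a n p / a n l * v p l * a n l
    have := (ha0 n l).ne'
    field_simp
  have hVt : Tendsto V atTop (𝓝 v') := by
    refine tendsto_pi_nhds.2 fun p => tendsto_pi_nhds.2 fun l => ?_
    show Tendsto (fun n => a n p / a n l * v p l) atTop (𝓝 (if β l = r' then v p l else 0))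
    by_cases h0 : v p l = 0
    · have : (fun n => a n p / a n l * v p l) = fun _ => (0 : ℝ) := by
        funext n
        rw [h0, mul_zero]
      rw [this, h0]
      split_ifs <;> exact tendsto_const_nhds
    · obtain ⟨h1, h2⟩ := hv p l h0
      have hxp : x p = 0 := by simp only [hx]; rw [if_pos (Or.inl h1)]
      by_cases h3 : β l = r'
      · rw [if_pos h3]
        have hxl : x l = 0 := by simp only [hx]; rw [if_pos (Or.inr h3)]
        have : (fun n => a n p / a n l * v p l) = fun _ => v p l := by
          funext n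
          have h4 : a n p = a n l := by
            show Real.exp (n * (x p - μ)) = Real.exp (n * (x l - μ))
            rw [hxp, hxl]
          rw [h4, div_self (ha0 n l).ne', one_mul]
        rw [this]
        exact tendsto_const_nhds
      · rw [if_neg h3]
        have hxl : x l = 1 := by
          simp only [hx]
          rw [if_neg]
          rintro (h | h)
          · exact h2 h
          · exact h3 h
        have h5 : (fun n => a n p / a n l * v p l) = fun n : ℕ => Real.exp (-(n : ℝ)) * v p l := by
          funext n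
          congr 1
          show Real.exp (n * (x p - μ)) / Real.exp (n * (x l - μ)) = _
          rw [← Real.exp_sub, hxp, hxl]
          congr 1
          ring
        rw [h5, ← zero_mul (v p l)]
        refine Tendsto.mul_const _ ?_
        exact Real.tendsto_exp_neg_atTop_nhds_zero.comp tendsto_natCast_atTop_atTop
  obtain ⟨w, hw, φ, U, hφ, hlim⟩ := subseq hg hc hp hZ hinv (fun n => diagonal (a n) * z)
    (fun n => hinv.diag _ (haT n) _ hz)
  refine ⟨w, hw, ?_⟩
  have h1 : Tendsto (fun n => (1 + V (φ n)) *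
      (diagonal (a (φ n)) * z * im (U n : Matrix (Fin d) (Fin d) ℤ))) atTop
      (𝓝 ((1 + v') * w)) := by
    have h2 : Tendsto (fun n => 1 + V (φ n)) atTop (𝓝 (1 + v')) :=
      tendsto_const_nhds.add (hVt.comp hφ.tendsto_atTop)
    exact h2.mul hlim
  refine hinv.closed.mem_of_tendsto h1 (Filter.Eventually.of_forall fun n => ?_)
  have h3 : (1 + V (φ n)) * (diagonal (a (φ n)) * z * im (U n : Matrix (Fin d) (Fin d) ℤ)) =
      (diagonal (a (φ n)) * ((1 + v) * z)) * im (U n : Matrix (Fin d) (Fin d) ℤ) := by
    rw [← Matrix.mul_assoc, ← Matrix.mul_assoc, ← hcomm, Matrix.mul_assoc (diagonal (a (φ n)))]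
  rw [h3]
  exact hinv.im (hinv.diag _ (haT _) _ hz') (U n)

end Pool.Agent.H66.RL
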