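import Pool.Agent.H66.RL.BxC

/-!
# [H66 RL LIN] Few lists make a linear functional small (60 min)

`e` is an integer vector, not zero, with sum zero on every block of `lab st` (so `st ≠ []`: for `st = []` the
blocks are singletons).  Then at most `n ^ (|st| - 1)` lists `ks` of the box satisfy
`|lf e (alp .. st ks) + t| < W`, if `2 W ≤ log (1 / lam)`.

Induction on `st`.  `st = s :: st'`, `q = |st'|`.  By definition, for `ks = k :: ks'`:
`lf e (alp (s :: st') (k :: ks')) = lf e (alp st' ks') + E * log (ρ₀ lam ^ k / rho s.v (alp st' ks'))` with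
`E = ∑ i with lab st' i = s.r, e i` (an integer).

Case `E = 0`: then `e` has sum zero on every block of `lab st'`: for a label `x ≠ s.r, s.r'` the block of
`lab (s :: st')` with label `x` is that of `lab st'`; the block of `s.r` for `lab (s :: st')` is the union of
the blocks `s.r`, `s.r'` of `lab st'` (`s.r ≠ s.r'`), so the sum on the block `s.r'` is `0 - E = 0`.  (If
`st' = []` this gives `e = 0`, a contradiction; so `q ≥ 1`.)  The condition on `k :: ks'` is the condition on
`ks'`, and the hypothesis gives at most `n * n ^ (q - 1) = n ^ q` lists (image of the product of an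
interval of `n` numbers and the filtered box).

Case `E ≠ 0`: for given `ks'` at most one `k` is possible:
`log (ρ₀ lam ^ k / ρ) = log (ρ₀ / ρ) + k * log lam` (`rho_pos`, `s.v ≠ 0`), so for `k ≠ k'` the two values differ by
`|E| |k - k'| log (1 / lam) ≥ 2 W`, but both would be in `(-W, W)`.  So the map `k :: ks' ↦ ks'`
(`List.tail`) is injective on the filtered box, with values in `BX m n q`, which has `n ^ q` elements
(`card_BX`).
-/

set_option autoImplicit false

namespace Pool.Agent.H66.RL

open Matrix Filter Topology Pool.Agent.H89.CSD Pool.Agent.H46.RG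

variable {d : ℕ}

private theorem lin_alp (ρ₀ lam : ℝ) (s : Step d) (st : List (Step d)) (k : ℕ) (ks : List ℕ)
    (e : Fin d → ℤ) :
    lf e (alp ρ₀ lam (s :: st) (k :: ks)) = lf e (alp ρ₀ lam st ks) +
      ((∑ i ∈ Finset.univ.filter (fun i => lab st i = s.r), e i : ℤ) : ℝ) *
        Real.log (ρ₀ * lam ^ k / rho s.v (alp ρ₀ lam st ks)) := by
  classical
  unfold lf
  rw [Finset.sum_filter]
  push_cast
  rw [Finset.sum_mul, ← Finset.sum_add_distrib]
  refine Finset.sum_congr rfl fun i _ => ?_
  show (e i : ℝ) * (alp ρ₀ lam st ks i +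
      if lab st i = s.r then Real.log (ρ₀ * lam ^ k / rho s.v (alp ρ₀ lam st ks)) else 0) = _
  split_ifs <;> ring

/-- sums over the blocks of the finer partition -/
private theorem lin_fine {s : Step d} {st : List (Step d)} (hr : s.r ≠ s.r') (e : Fin d → ℤ)
    (hsum : ∀ r, ∑ i ∈ Finset.univ.filter (fun i => lab (s :: st) i = r), e i = 0)
    (hE : ∑ i ∈ Finset.univ.filter (fun i => lab st i = s.r), e i = 0) (r : Fin d) :
    ∑ i ∈ Finset.univ.filter (fun i => lab st i = r), e i = 0 := by
  classical
  by_cases h1 : r = s.r
  · rw [h1]; exact hE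
  · by_cases h2 : r = s.r'
    · have h3 := hsum s.r
      have h4 : Finset.univ.filter (fun i => lab (s :: st) i = s.r) =
          Finset.univ.filter (fun i => lab st i = s.r) ∪
          Finset.univ.filter (fun i => lab st i = s.r') := by
        ext i
        simp only [Finset.mem_filter, Finset.mem_univ, true_and, Finset.mem_union]
        show mrg (lab st) s.r s.r' i = s.r ↔ _
        unfold mrg
        split_ifs with h
        · simp [h]
        · constructor
          · exact fun h5 => Or.inl h5
          · rintro (h5 | h5)
            · exact h5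
            · exact absurd h5 h
      have h5 : Disjoint (Finset.univ.filter (fun i => lab st i = s.r))
          (Finset.univ.filter (fun i => lab st i = s.r')) := by
        rw [Finset.disjoint_left]
        intro i hi hi'
        exact hr ((Finset.mem_filter.1 hi).2.symm.trans (Finset.mem_filter.1 hi').2)
      rw [h4, Finset.sum_union h5, hE, zero_add] at h3
      rw [h2]
      exact h3
    · have h4 : Finset.univ.filter (fun i => lab (s :: st) i = r) =
          Finset.univ.filter (fun i => lab st i = r) := by
        ext i
        simp only [Finset.mem_filter, Finset.mem_univ, true_and]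
        show mrg (lab st) s.r s.r' i = r ↔ _
        unfold mrg
        split_ifs with h
        · constructor
          · exact fun h5 => absurd h5.symm h1
          · exact fun h5 => absurd (h5.symm.trans h) h2
        · exact Iff.rfl
      rw [← h4]
      exact hsum r

private theorem lin_nil (e : Fin d → ℤ)
    (hsum : ∀ r, ∑ i ∈ Finset.univ.filter (fun i => lab ([] : List (Step d)) i = r), e i = 0) :
    e = 0 := by
  classical
  funext r
  have h1 := hsum r
  have h2 : Finset.univ.filter (fun i => lab ([] : List (Step d)) i = r) = {r} := by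
    ext i
    rw [Finset.mem_filter, Finset.mem_singleton]
    exact ⟨fun h => h.2, fun h => ⟨Finset.mem_univ _, h⟩⟩
  rw [h2, Finset.sum_singleton] at h1
  exact h1

theorem bad_count {ρ₀ lam : ℝ} (hρ : 0 < ρ₀) (hlam : 0 < lam) {W : ℝ}
    (hW : 2 * W ≤ Real.log (1 / lam)) (m n : ℕ) {st : List (Step d)} (hv : Val st)
    (hm : st.length ≤ m) (e : Fin d → ℤ) (he : e ≠ 0)
    (hsum : ∀ r, ∑ i ∈ Finset.univ.filter (fun i => lab st i = r), e i = 0) (t : ℝ) :
    ((BX m n st.length).filter fun ks => |lf e (alp ρ₀ lam st ks) + t| < W).card ≤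
      n ^ (st.length - 1) := by
  classical
  induction st with
  | nil => exact absurd (lin_nil e hsum) he
  | cons s st ih =>
    obtain ⟨hv', hr, hv0, _⟩ := hv
    rw [List.length_cons] at hm ⊢
    set q := st.length with hq
    rw [Nat.add_sub_cancel]
    by_cases hE : ∑ i ∈ Finset.univ.filter (fun i => lab st i = s.r), e i = 0
    · have hfine := lin_fine hr e hsum hE
      have hq1 : 1 ≤ q := by
        by_contra h
        have h0 : st = [] := List.length_eq_zero_iff.1 (by omega)
        rw [h0] at hfine
        exact he (lin_nil e hfine)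
      have h1 := ih hv' (by omega) hfine
      have h2 : ((BX m n (q + 1)).filter fun ks => |lf e (alp ρ₀ lam (s :: st) ks) + t| < W) ⊆
          ((Finset.Ico ((m - 1 - q) * n) ((m - q) * n)) ×ˢ
            ((BX m n q).filter fun ks => |lf e (alp ρ₀ lam st ks) + t| < W)).image
              (fun x => x.1 :: x.2) := by
        intro l hl
        obtain ⟨hl1, hl2⟩ := Finset.mem_filter.1 hl
        obtain ⟨k, ks, rfl, h3, h4, h5⟩ := mem_BX_succ.1 hl1
        rw [lin_alp, hE, Int.cast_zero, zero_mul, add_zero] at hl2
        exact Finset.mem_image.2 ⟨(k, ks), Finset.mem_product.2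
          ⟨Finset.mem_Ico.2 ⟨h3, h4⟩, Finset.mem_filter.2 ⟨h5, hl2⟩⟩, rfl⟩
      calc _ ≤ _ := Finset.card_le_card h2
        _ ≤ _ := Finset.card_image_le
        _ = ((m - q) * n - (m - 1 - q) * n) *
            ((BX m n q).filter fun ks => |lf e (alp ρ₀ lam st ks) + t| < W).card := by
            rw [Finset.card_product, Nat.card_Ico]
        _ ≤ n * n ^ (q - 1) := by
            refine Nat.mul_le_mul ?_ h1
            have h6 : m - q = (m - 1 - q) + 1 := by omega
            rw [h6, Nat.add_mul, one_mul, Nat.add_sub_cancel_left]
        _ = n ^ q := by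
            rw [mul_comm, ← pow_succ]
            congr 1
            omega
    · rw [← card_BX (m := m) (n := n) (q := q) (by omega)]
      refine Finset.card_le_card_of_injOn List.tail ?_ ?_
      · intro l hl
        obtain ⟨hl1, _⟩ := Finset.mem_filter.1 (Finset.mem_coe.1 hl)
        obtain ⟨k, ks, rfl, _, _, h5⟩ := mem_BX_succ.1 hl1
        exact h5
      · intro l hl l' hl' heq
        obtain ⟨hl1, hl2⟩ := Finset.mem_filter.1 (Finset.mem_coe.1 hl)
        obtain ⟨hl1', hl2'⟩ := Finset.mem_filter.1 (Finset.mem_coe.1 hl')
        obtain ⟨k, ks, rfl, _, _, _⟩ := mem_BX_succ.1 hl1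
        obtain ⟨k', ks', rfl, _, _, _⟩ := mem_BX_succ.1 hl1'
        simp only [List.tail_cons] at heq
        subst heq
        by_contra hkk
        have hne : k ≠ k' := fun h => hkk (by rw [h])
        rw [lin_alp] at hl2 hl2'
        set E := ∑ i ∈ Finset.univ.filter (fun i => lab st i = s.r), e i with hEdef
        have hrho := rho_pos hv0 (alp ρ₀ lam st ks)
        have hlog : ∀ j : ℕ, Real.log (ρ₀ * lam ^ j / rho s.v (alp ρ₀ lam st ks)) =
            Real.log (ρ₀ / rho s.v (alp ρ₀ lam st ks)) - j * Real.log (1 / lam) := by
          intro j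
          rw [mul_div_right_comm, Real.log_mul (by positivity) (by positivity), Real.log_pow,
            one_div, Real.log_inv]
          ring
        rw [hlog] at hl2 hl2'
        set X := lf e (alp ρ₀ lam st ks)
        set Y := Real.log (ρ₀ / rho s.v (alp ρ₀ lam st ks))
        set L := Real.log (1 / lam)
        have hWpos : 0 < W := lt_of_le_of_lt (abs_nonneg _) hl2
        have hLpos : 0 < L := by linarith
        have h6 : |((E : ℝ) * (((k' : ℤ) - k : ℤ) : ℝ)) * L| < 2 * W := by
          have h7 : ((E : ℝ) * (((k' : ℤ) - k : ℤ) : ℝ)) * L =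
              (X + E * (Y - k * L) + t) - (X + E * (Y - k' * L) + t) := by
            push_cast
            ring
          rw [h7]
          calc _ ≤ |X + E * (Y - k * L) + t| + |X + E * (Y - k' * L) + t| := abs_sub _ _
            _ < 2 * W := by linarith
        have h8 : (1 : ℝ) ≤ |(E : ℝ) * (((k' : ℤ) - k : ℤ) : ℝ)| := by
          have h9 : (1 : ℤ) ≤ |E * ((k' : ℤ) - k)| := by
            apply Int.one_le_abs
            exact mul_ne_zero hE (sub_ne_zero.2 (by exact_mod_cast hne.symm))
          exact_mod_cast h9
        rw [abs_mul, abs_of_pos hLpos] at h6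
        nlinarith

end Pool.Agent.H66.RL
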