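import Pool.Agent.H66.RL.Main

/-!
# [H66 RL LOG] The power of the logarithm (60 min)

`log_one`, from `main_count`: `m = d - d / d.minFac ≥ 1` (`d ≥ 3`: `d / d.minFac ≤ d / 2`), `D = m d ^ 4`,
`L = log (1 / lam) > 0`.  If `n ≥ 2 D` then `|T| ≥ n ^ m - D n ^ (m - 1) ≥ n ^ m / 2`.  Given
`0 < ε < 1` let `n` be the largest natural number with `κ lam ^ (m n) ≥ ε` (if there is one), i.e.
`n = ⌊(log (1 / ε) + log κ) / (m L)⌋₊`.  Then `n + 1 > (log (1 / ε) + log κ) / (m L)`.  Let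
`N₀` be so large that for `log (1 / ε) ≥ N₀` one has `log (1 / ε) + log κ ≥ log (1 / ε) / 2 ≥ 0`,
`log (1 / ε) / (4 m L) ≥ 1` and `≥ 2 D`; then `n ≥ log (1 / ε) / (2 m L) - 1 ≥ log (1 / ε) / (4 m L) ≥ 2 D` and
`|T| ≥ n ^ m / 2 ≥ (log (1 / ε) / (4 m L)) ^ m / 2`.  For `log (1 / ε) < N₀` it is enough that
`κ' N₀ ^ m ≤ 1` and that `T` has one element (a nonzero integer vector with `|P g x| ≤ R`: take any element
of the `T` for an `n` with `n ^ m > D n ^ (m - 1)`, e.g. `n = D + 1`).  `κ' = min (1 / (2 (4 m L) ^ m)) (1 / (N₀ ^ m + 1))`.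

`log_pow`: general `g`, apply `log_one` to `t • g`, `t = |det g| ^ (-1 / d)` (real power): `P (t • g) x = t ^ d P g x`,
`t ^ d = |det g|⁻¹`, `|det (t • g)| = 1`; `t • g` is integral iff `g` is (`IntForm`, see H89/CSD/IntForm).
-/

set_option autoImplicit false

namespace Pool.Agent.H66.RL

open Matrix Filter Topology Pool.Agent.H89.CSD Pool.Agent.H46.RG

variable {d : ℕ}

private theorem log_aux_m {d : ℕ} (hd : 3 ≤ d) : 1 ≤ d - d / d.minFac := by
  have h1 : 2 ≤ d.minFac := (Nat.minFac_prime (by omega)).two_le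
  have h2 : d / d.minFac ≤ d / 2 := Nat.div_le_div_left h1 (by norm_num)
  omega

private theorem log_abs {m : ℕ} (hm : 1 ≤ m) (D : ℕ) {κ lam : ℝ} (hκ : 0 < κ) (hl0 : 0 < lam)
    (hl1 : lam < 1) :
    ∃ κ' : ℝ, 0 < κ' ∧ ∀ ε : ℝ, 0 < ε → ε < 1 → κ' * Real.log (1 / ε) ^ m ≤ 1 ∨
      ∃ n : ℕ, ε ≤ κ * lam ^ (m * n) ∧
        κ' * Real.log (1 / ε) ^ m + (D : ℝ) * (n : ℝ) ^ (m - 1) ≤ (n : ℝ) ^ m := by
  set L : ℝ := Real.log (1 / lam) with hL
  have hL0 : 0 < L := Real.log_pos (by rw [lt_div_iff₀ hl0]; linarith)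
  have hm0 : (0 : ℝ) < m := by exact_mod_cast hm
  set M : ℝ := m * L with hM
  have hM0 : 0 < M := by positivity
  set N₀ : ℝ := max (2 * |Real.log κ|) (4 * M * (1 + 2 * D)) with hN₀
  have hN1 : 2 * |Real.log κ| ≤ N₀ := le_max_left _ _
  have hN2 : 4 * M * (1 + 2 * D) ≤ N₀ := le_max_right _ _
  have hN0 : 0 ≤ N₀ := le_trans (by positivity) hN1
  have hA : 0 < 1 / (2 * (4 * M) ^ m) := by positivity
  have hB : 0 < 1 / (N₀ ^ m + 1) := by positivity
  refine ⟨min (1 / (2 * (4 * M) ^ m)) (1 / (N₀ ^ m + 1)), lt_min hA hB, fun ε hε hε1 => ?_⟩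
  set κ' := min (1 / (2 * (4 * M) ^ m)) (1 / (N₀ ^ m + 1)) with hκ'
  have hκ'0 : 0 < κ' := lt_min hA hB
  have hk1 : κ' ≤ 1 / (2 * (4 * M) ^ m) := min_le_left _ _
  have hk2 : κ' ≤ 1 / (N₀ ^ m + 1) := min_le_right _ _
  set l : ℝ := Real.log (1 / ε) with hl
  have hl' : 0 < l := Real.log_pos (by rw [lt_div_iff₀ hε]; linarith)
  rcases lt_or_ge l N₀ with h | h
  · left
    calc κ' * l ^ m ≤ 1 / (N₀ ^ m + 1) * N₀ ^ m :=
          mul_le_mul hk2 (pow_le_pow_left₀ hl'.le h.le m) (by positivity) hB.le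
      _ ≤ 1 := by
          rw [one_div, inv_mul_le_iff₀ (by positivity)]
          linarith
  · right
    have hx : l / 2 ≤ l + Real.log κ := by
      have := neg_abs_le (Real.log κ)
      linarith
    set y : ℝ := l / (4 * M) with hy
    have hyD : 1 + 2 * (D : ℝ) ≤ y := by
      rw [hy, le_div_iff₀ (by positivity)]
      linarith
    have h2y : 2 * y ≤ (l + Real.log κ) / M := by
      rw [le_div_iff₀ hM0, hy]
      have : 2 * (l / (4 * M)) * M = l / 2 := by
        field_simp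
        ring
      linarith
    have hD0 : (0 : ℝ) ≤ D := Nat.cast_nonneg D
    refine ⟨⌊(l + Real.log κ) / M⌋₊, ?_, ?_⟩
    · have hn : (⌊(l + Real.log κ) / M⌋₊ : ℝ) ≤ (l + Real.log κ) / M :=
        Nat.floor_le (by linarith)
      rw [le_div_iff₀ hM0] at hn
      rw [← Real.log_le_log_iff hε (by positivity), Real.log_mul hκ.ne' (by positivity),
        Real.log_pow]
      have e1 : l = - Real.log ε := by rw [hl, one_div, Real.log_inv]
      have e2 : L = - Real.log lam := by rw [hL, one_div, Real.log_inv]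
      have e3 : Real.log lam = - L := by linarith
      have e4 : Real.log ε = - l := by linarith
      rw [e3, e4]
      push_cast
      rw [hM] at hn
      linarith
    · have hn : (l + Real.log κ) / M - 1 < (⌊(l + Real.log κ) / M⌋₊ : ℝ) :=
        Nat.sub_one_lt_floor _
      set n : ℕ := ⌊(l + Real.log κ) / M⌋₊ with hnn
      have hyn : y ≤ n := by linarith
      have hy0 : 0 ≤ y := by linarith
      have h1 : κ' * l ^ m ≤ (n : ℝ) ^ m / 2 := by
        calc κ' * l ^ m ≤ 1 / (2 * (4 * M) ^ m) * l ^ m :=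
              mul_le_mul_of_nonneg_right hk1 (by positivity)
          _ = y ^ m / 2 := by
              rw [hy, div_pow]
              field_simp
          _ ≤ (n : ℝ) ^ m / 2 := by
              have := pow_le_pow_left₀ hy0 hyn m
              linarith
      have h2 : (D : ℝ) * (n : ℝ) ^ (m - 1) ≤ (n : ℝ) ^ m / 2 := by
        have h3 : (n : ℝ) ^ m = n * (n : ℝ) ^ (m - 1) := by
          rw [← pow_succ']
          congr 1
          omega
        rw [h3]
        have h4 : (D : ℝ) ≤ n / 2 := by linarith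
        calc (D : ℝ) * (n : ℝ) ^ (m - 1) ≤ n / 2 * (n : ℝ) ^ (m - 1) :=
              mul_le_mul_of_nonneg_right h4 (by positivity)
          _ = n * (n : ℝ) ^ (m - 1) / 2 := by ring
      linarith

theorem log_one (hd : 3 ≤ d) {c : ℝ} (hc : 0 < c) :
    ∃ R κ : ℝ, 1 ≤ R ∧ 0 < κ ∧ ∀ g : Matrix (Fin d) (Fin d) ℝ, |g.det| = 1 → Pos c g →
      ¬ IntForm g → ∀ ε : ℝ, 0 < ε → ε < 1 → ∃ T : Finset (Fin d → ℤ),
        κ * Real.log (1 / ε) ^ (d - d / d.minFac) ≤ T.card ∧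
        (∀ x ∈ T, x ≠ 0 ∧ |P g (ic x)| ≤ R) ∧
        ∀ x ∈ T, ∀ y ∈ T, x ≠ y → ε ≤ |P g (ic x) - P g (ic y)| := by
  classical
  obtain ⟨R, κ, lam, hR, hκ, hl0, hl1, hmain⟩ := main_count hd hc
  have hm := log_aux_m hd
  set m : ℕ := d - d / d.minFac with hmm
  obtain ⟨κ', hκ', habs⟩ := log_abs hm (m * d ^ 4) hκ hl0 hl1
  refine ⟨R, κ', hR, hκ', fun g hg hp hn ε hε hε1 => ?_⟩
  rcases habs ε hε hε1 with h | ⟨n, hn1, hn2⟩
  · obtain ⟨T, hT1, hT2, -⟩ := hmain g hg hp hn (m * d ^ 4 + 1)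
    have hne : T.Nonempty := by
      rw [← Finset.card_pos]
      by_contra h0
      have h1 : T.card = 0 := by omega
      rw [h1, zero_add] at hT1
      have h2 : (m * d ^ 4 + 1) ^ m = (m * d ^ 4 + 1) * (m * d ^ 4 + 1) ^ (m - 1) := by
        rw [← pow_succ']
        congr 1
        omega
      rw [h2] at hT1
      have h3 : 0 < (m * d ^ 4 + 1) ^ (m - 1) := by positivity
      have h4 := Nat.le_of_mul_le_mul_right hT1 h3
      omega
    obtain ⟨x, hx⟩ := hne
    refine ⟨{x}, by simpa using h, fun y hy => ?_, fun a ha b hb hab => ?_⟩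
    · rw [Finset.mem_singleton.1 hy]
      exact hT2 x hx
    · rw [Finset.mem_singleton.1 ha, Finset.mem_singleton.1 hb] at hab
      exact absurd rfl hab
  · obtain ⟨T, hT1, hT2, hT3⟩ := hmain g hg hp hn n
    refine ⟨T, ?_, hT2, fun x hx y hy hxy => hn1.trans (hT3 x hx y hy hxy)⟩
    have h1 : ((n ^ m : ℕ) : ℝ) ≤ ((T.card + m * d ^ 4 * n ^ (m - 1) : ℕ) : ℝ) := by
      exact_mod_cast hT1
    push_cast at h1 hn2
    linarith

end Pool.Agent.H66.RL
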