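import Pool.Agent.H66.RL.Def

/-!
# [H66 RL TRA] Trees: the last scale, and adding points (45 min)

`Tr_append`: induction on `ks` (both sides unfold in the same way; for `ks = []` they are equal by
definition).  `Tr_mem`: induction.

`add_pts`: for `p ∈ P` with partner `p'` one of `q = p`, `q = p'` satisfies `|q - e| ≥ c / 2 * r` for all `e ∈ T`:
otherwise there are `e, e' ∈ T` with `|p - e| < c / 2 * r`, `|p' - e'| < c / 2 * r`; `e ≠ e'` because
`|p - p'| ≥ c * r`; and `|e - e'| < C * r + c * r ≤ 2 * C * r < 4 * C * r`, a contradiction.  Choose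
`q p` (`choose`); `|q p - p| ≤ C * r`, so for `p₁ ≠ p₂` in `P`: `|q p₁ - q p₂| ≥ 4 C r - 2 C r ≥ c / 2 * r > 0`.  `T' = T ∪ q(P)`,
a disjoint union, `q` is injective on `P`.
-/

set_option autoImplicit false

namespace Pool.Agent.H66.RL

theorem Tr_append (c C lam : ℝ) (V : Set ℝ) (ks : List ℕ) (k : ℕ) (w : ℝ) :
    Tr c C lam V (ks ++ [k]) w ↔ Tr c C lam {x | Tr c C lam V [k] x} ks w := by
  induction ks generalizing w with
  | nil => exact Iff.rfl
  | cons k' ks ih =>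
    show (Tr c C lam V (ks ++ [k]) w ∧
      ∃ w', Tr c C lam V (ks ++ [k]) w' ∧ c * lam ^ k' ≤ |w - w'| ∧ |w - w'| ≤ C * lam ^ k') ↔
      (Tr c C lam {x | Tr c C lam V [k] x} ks w ∧
      ∃ w', Tr c C lam {x | Tr c C lam V [k] x} ks w' ∧ c * lam ^ k' ≤ |w - w'| ∧
        |w - w'| ≤ C * lam ^ k')
    simp only [ih]

theorem Tr_mem {c C lam : ℝ} {V : Set ℝ} {ks : List ℕ} {w : ℝ} (h : Tr c C lam V ks w) :
    w ∈ V := by
  induction ks with
  | nil => exact h
  | cons k ks ih => exact ih h.1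

theorem add_pts {c C r : ℝ} (hc : 0 < c) (hC : c ≤ C) (hr : 0 < r) {V : Set ℝ} {T P : Finset ℝ}
    (hTV : ∀ x ∈ T, x ∈ V) (hT : ∀ x ∈ T, ∀ y ∈ T, x ≠ y → 4 * C * r ≤ |x - y|)
    (hPV : ∀ p ∈ P, p ∈ V ∧ ∃ p' ∈ V, c * r ≤ |p - p'| ∧ |p - p'| ≤ C * r)
    (hP : ∀ x ∈ P, ∀ y ∈ P, x ≠ y → 4 * C * r ≤ |x - y|) :
    ∃ T' : Finset ℝ, (∀ x ∈ T', x ∈ V) ∧ T.card + P.card ≤ T'.card ∧
      ∀ x ∈ T', ∀ y ∈ T', x ≠ y → c / 2 * r ≤ |x - y| := by
  classical
  have hcr : 0 < c * r := mul_pos hc hr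
  have hCr : c * r ≤ C * r := mul_le_mul_of_nonneg_right hC hr.le
  have h1 : ∀ p : ℝ, ∃ q : ℝ, p ∈ P → q ∈ V ∧ |q - p| ≤ C * r ∧
      ∀ e ∈ T, c / 2 * r ≤ |q - e| := by
    intro p
    by_cases hp : p ∈ P
    · obtain ⟨hpV, p', hp'V, h1, h2⟩ := hPV p hp
      by_contra hcon
      push Not at hcon
      obtain ⟨-, h3⟩ := hcon p
      obtain ⟨e, he, h3⟩ := h3 hpV (by rw [sub_self, abs_zero]; linarith)
      obtain ⟨-, h4⟩ := hcon p'
      obtain ⟨e', he', h4⟩ := h4 hp'V (by rw [abs_sub_comm]; exact h2)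
      by_cases hee : e = e'
      · subst hee
        have h5 : |p - p'| ≤ |p - e| + |e - p'| := abs_sub_le _ _ _
        rw [abs_sub_comm e] at h5
        linarith
      · have h5 := hT e he e' he' hee
        have h6 : |e - e'| ≤ |e - p| + |p - e'| := abs_sub_le _ _ _
        have h7 : |p - e'| ≤ |p - p'| + |p' - e'| := abs_sub_le _ _ _
        rw [abs_sub_comm e p] at h6
        linarith
    · exact ⟨0, fun h => absurd h hp⟩
  choose q hq using h1
  have hsep : ∀ x ∈ P, ∀ y ∈ P, x ≠ y → 2 * C * r ≤ |q x - q y| := by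
    intro x hx y hy hxy
    have h2 := hP x hx y hy hxy
    have h3 := (hq x hx).2.1
    have h4 := (hq y hy).2.1
    have h5 : |x - y| ≤ |x - q x| + |q x - y| := abs_sub_le _ _ _
    have h6 : |q x - y| ≤ |q x - q y| + |q y - y| := abs_sub_le _ _ _
    rw [abs_sub_comm x (q x)] at h5
    linarith
  have hinj : Set.InjOn q P := by
    intro x hx y hy hxy
    by_contra hne
    have h2 := hsep x hx y hy hne
    rw [hxy, sub_self, abs_zero] at h2
    linarith
  have hdis : Disjoint T (P.image q) := by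
    rw [Finset.disjoint_left]
    intro e he hemem
    obtain ⟨x, hx, rfl⟩ := Finset.mem_image.1 hemem
    have h2 := (hq x hx).2.2 _ he
    rw [sub_self, abs_zero] at h2
    linarith
  refine ⟨T ∪ P.image q, ?_, ?_, ?_⟩
  · intro x hx
    rcases Finset.mem_union.1 hx with hx | hx
    · exact hTV x hx
    · obtain ⟨y, hy, rfl⟩ := Finset.mem_image.1 hx
      exact (hq y hy).1
  · rw [Finset.card_union_of_disjoint hdis, Finset.card_image_of_injOn hinj]
  · intro x hx y hy hxy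
    rcases Finset.mem_union.1 hx with hx | hx <;> rcases Finset.mem_union.1 hy with hy | hy
    · have := hT x hx y hy hxy
      linarith
    · obtain ⟨z, hz, rfl⟩ := Finset.mem_image.1 hy
      rw [abs_sub_comm]
      exact (hq z hz).2.2 x hx
    · obtain ⟨z, hz, rfl⟩ := Finset.mem_image.1 hx
      exact (hq z hz).2.2 y hy
    · obtain ⟨z, hz, rfl⟩ := Finset.mem_image.1 hx
      obtain ⟨w, hw, rfl⟩ := Finset.mem_image.1 hy
      have h2 : z ≠ w := fun h => hxy (by rw [h])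
      have := hsep z hz w hw h2
      linarith

end Pool.Agent.H66.RL
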