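import Pool.Agent.H66.RL.Def

/-!
# [H66 RL TWV] The change of a product under a small matrix (60 min)

`prod_one_add`: for a finite set of indices `|∏ (1 + ε p) - 1 - ∑ ε p| ≤ exp S - 1 - S` and
`|∏ (1 + ε p) - 1| ≤ exp S - 1`, `S = ∑ |ε p|`, by induction on the set:
`∏' - 1 - ∑' = (∏ - 1 - ∑) + ε (∏ - 1)` and
`(exp S - 1 - S) + |ε| (exp S - 1) = exp S (1 + |ε|) - 1 - S - |ε| ≤ exp (S + |ε|) - 1 - (S + |ε|)`;
`exp S - 1 - S ≤ S ^ 2` for `0 ≤ S ≤ 1` (`Real.abs_exp_sub_one_sub_id_le`).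

`two_v`: put `τ p l = |v p l| exp (α p - α l)`, `t p l = v p l * y l / y p` (`y p ≠ 0`),
`ε p = ∑ l, t p l`; `((1 + v) *ᵥ y) p = y p * (1 + ε p)`.  From `|y l| exp (α l) ∈ [1/B, B]`:
`τ p l / B ^ 2 ≤ |t p l| ≤ B ^ 2 τ p l`.  Let `(p₀, l₀)` be the dominating pair, `τ₀` its term: the other terms
are `≤ τ₀ / Lam`, so `rho ≤ τ₀ (1 + d ^ 2 / Lam) ≤ 2 τ₀`, and the sum of the other `|t p l|` is at most
`B ^ 2 d ^ 2 τ₀ / Lam ≤ τ₀ / (8 B ^ 2)`.  `S = ∑ |ε p| ≤ ∑∑ |t p l| ≤ B ^ 2 rho ≤ 1 / 8`, and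
`S ^ 2 ≤ (B ^ 2 rho) (2 B ^ 2 τ₀) ≤ τ₀ / (4 B ^ 2)` because `rho ≤ 1 / (8 B ^ 6)`.  Hence
`|∏ (1 + ε p) - 1| ≥ τ₀ (1 / B ^ 2 - 1 / (8 B ^ 2) - 1 / (4 B ^ 2)) ≥ rho / (4 B ^ 2)` and
`≤ S + S ^ 2 ≤ 2 B ^ 2 rho`.  Finally `|∏ y p| = ∏ (|y p| exp (α p))` (`∑ α = 0`) is in `[B ^ (-d), B ^ d]`.
The bounds for the entries: `|ε p| ≤ S ≤ 1 / 8`.
-/

set_option autoImplicit false

namespace Pool.Agent.H66.RL

open Matrix Filter Topology Pool.Agent.H89.CSD Pool.Agent.H46.RG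

variable {d : ℕ}

private theorem twv_exp1 (x : ℝ) (hx : 0 ≤ x) : x ≤ Real.exp x - 1 := by
  have := Real.add_one_le_exp x
  linarith

private theorem twv_ind {ι : Type} (ε : ι → ℝ) (s : Finset ι) :
    |∏ p ∈ s, (1 + ε p) - 1| ≤ Real.exp (∑ p ∈ s, |ε p|) - 1 ∧
    |∏ p ∈ s, (1 + ε p) - 1 - ∑ p ∈ s, ε p| ≤
      Real.exp (∑ p ∈ s, |ε p|) - 1 - ∑ p ∈ s, |ε p| := by
  classical
  induction s using Finset.induction_on with
  | empty => simp
  | insert a s ha ih =>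
    obtain ⟨h1, h2⟩ := ih
    rw [Finset.prod_insert ha, Finset.sum_insert ha, Finset.sum_insert ha]
    obtain ⟨P, hP⟩ : ∃ P, P = ∏ p ∈ s, (1 + ε p) := ⟨_, rfl⟩
    obtain ⟨S, hS⟩ : ∃ S, S = ∑ p ∈ s, |ε p| := ⟨_, rfl⟩
    obtain ⟨R, hR⟩ : ∃ R, R = ∑ p ∈ s, ε p := ⟨_, rfl⟩
    rw [← hP, ← hS] at h1
    rw [← hP, ← hS, ← hR] at h2
    rw [← hP, ← hS, ← hR]
    have hS0 : 0 ≤ S := by
      rw [hS]
      exact Finset.sum_nonneg fun _ _ => abs_nonneg _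
    have he : 0 ≤ |ε a| := abs_nonneg _
    have h3 : Real.exp (|ε a| + S) = Real.exp |ε a| * Real.exp S := Real.exp_add _ _
    have h4 : 1 + |ε a| ≤ Real.exp |ε a| := by
      have := Real.add_one_le_exp |ε a|
      linarith
    have h5 : (1 + |ε a|) * Real.exp S ≤ Real.exp |ε a| * Real.exp S :=
      mul_le_mul_of_nonneg_right h4 (Real.exp_pos S).le
    constructor
    · have e1 : (1 + ε a) * P - 1 = (P - 1) + ε a * (P - 1) + ε a := by ring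
      rw [e1]
      have e2 : |ε a * (P - 1)| ≤ |ε a| * (Real.exp S - 1) := by
        rw [abs_mul]
        exact mul_le_mul_of_nonneg_left h1 he
      have e3 := abs_add_le ((P - 1) + ε a * (P - 1)) (ε a)
      have e4 := abs_add_le (P - 1) (ε a * (P - 1))
      rw [h3]
      linarith
    · have e1 : (1 + ε a) * P - 1 - (ε a + R) = (P - 1 - R) + ε a * (P - 1) := by ring
      rw [e1]
      have e2 : |ε a * (P - 1)| ≤ |ε a| * (Real.exp S - 1) := by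
        rw [abs_mul]
        exact mul_le_mul_of_nonneg_left h1 he
      have e3 := abs_add_le (P - 1 - R) (ε a * (P - 1))
      rw [h3]
      linarith

theorem prod_one_add (ε : Fin d → ℝ) (h : ∑ p, |ε p| ≤ 1) :
    |∏ p, (1 + ε p) - 1 - ∑ p, ε p| ≤ (∑ p, |ε p|) ^ 2 := by
  have h1 := (twv_ind ε Finset.univ).2
  have h0 : 0 ≤ ∑ p, |ε p| := Finset.sum_nonneg fun _ _ => abs_nonneg _
  have h2 := Real.abs_exp_sub_one_sub_id_le (x := ∑ p, |ε p|) (by rw [abs_of_nonneg h0]; exact h)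
  have h3 := (abs_le.1 h2).2
  linarith

private theorem twv_t {B : ℝ} (hB : 1 ≤ B) {α y : Fin d → ℝ}
    (hy : ∀ p, B⁻¹ ≤ |y p| * Real.exp (α p) ∧ |y p| * Real.exp (α p) ≤ B)
    (v : Matrix (Fin d) (Fin d) ℝ) (p l : Fin d) :
    |v p l| * Real.exp (α p - α l) ≤ B ^ 2 * |v p l * y l / y p| ∧
      |v p l * y l / y p| ≤ B ^ 2 * (|v p l| * Real.exp (α p - α l)) := by
  have hB0 : 0 < B := by linarith
  have hyp : 0 < |y p| := by
    have h1 := (hy p).1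
    have h2 : 0 < B⁻¹ := inv_pos.2 hB0
    by_contra h3
    have h4 : |y p| = 0 := le_antisymm (not_lt.1 h3) (abs_nonneg _)
    rw [h4, zero_mul] at h1
    linarith
  have hyl : 0 < |y l| := by
    have h1 := (hy l).1
    have h2 : 0 < B⁻¹ := inv_pos.2 hB0
    by_contra h3
    have h4 : |y l| = 0 := le_antisymm (not_lt.1 h3) (abs_nonneg _)
    rw [h4, zero_mul] at h1
    linarith
  have e1 : |v p l * y l / y p| = |v p l| * (|y l| / |y p|) := by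
    rw [abs_div, abs_mul, mul_div_assoc]
  have hep := Real.exp_pos (α p)
  have hel := Real.exp_pos (α l)
  have hx : Real.exp (α p - α l) = Real.exp (α p) / Real.exp (α l) := Real.exp_sub _ _
  -- ratio
  have e2 : |y l| / |y p| = (|y l| * Real.exp (α l)) / (|y p| * Real.exp (α p)) *
      Real.exp (α p - α l) := by
    rw [hx]
    field_simp
  obtain ⟨r, hr⟩ : ∃ r, r = (|y l| * Real.exp (α l)) / (|y p| * Real.exp (α p)) := ⟨_, rfl⟩
  have hYp : 0 < |y p| * Real.exp (α p) := mul_pos hyp hep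
  have hYl : 0 < |y l| * Real.exp (α l) := mul_pos hyl hel
  have hr1 : r ≤ B ^ 2 := by
    rw [hr, div_le_iff₀ hYp]
    have h1 := (hy l).2
    have h2 : B ^ 2 * B⁻¹ ≤ B ^ 2 * (|y p| * Real.exp (α p)) :=
      mul_le_mul_of_nonneg_left (hy p).1 (by positivity)
    have h3 : B ^ 2 * B⁻¹ = B := by
      field_simp
    linarith
  have hr2 : 1 ≤ B ^ 2 * r := by
    rw [hr, ← mul_div_assoc, le_div_iff₀ hYp, one_mul]
    have h1 := (hy p).2
    have h2 : B ^ 2 * B⁻¹ ≤ B ^ 2 * (|y l| * Real.exp (α l)) :=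
      mul_le_mul_of_nonneg_left (hy l).1 (by positivity)
    have h3 : B ^ 2 * B⁻¹ = B := by
      field_simp
    linarith
  have hτ : 0 ≤ |v p l| * Real.exp (α p - α l) := mul_nonneg (abs_nonneg _) (Real.exp_pos _).le
  have e3 : |v p l * y l / y p| = r * (|v p l| * Real.exp (α p - α l)) := by
    rw [e1, e2, ← hr]
    ring
  rw [e3]
  constructor
  · have := mul_le_mul_of_nonneg_right hr2 hτ
    linarith
  · exact mul_le_mul_of_nonneg_right hr1 hτ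

theorem two_v {B : ℝ} (hB : 1 ≤ B) {α y : Fin d → ℝ} (hα : ∑ i, α i = 0)
    (hy : ∀ p, B⁻¹ ≤ |y p| * Real.exp (α p) ∧ |y p| * Real.exp (α p) ≤ B)
    {v : Matrix (Fin d) (Fin d) ℝ} {Lam : ℝ} (hL : 8 * (d : ℝ) ^ 2 * B ^ 4 ≤ Lam)
    (hdom : Dom Lam v α) (hrho : rho v α ≤ 1 / (8 * B ^ 6)) :
    (∀ p, (2 * B)⁻¹ ≤ |((1 + v) *ᵥ y) p| * Real.exp (α p) ∧
      |((1 + v) *ᵥ y) p| * Real.exp (α p) ≤ 2 * B) ∧
    1 / (4 * B ^ (d + 2)) * rho v α ≤ |∏ p, y p - ∏ p, ((1 + v) *ᵥ y) p| ∧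
    |∏ p, y p - ∏ p, ((1 + v) *ᵥ y) p| ≤ 2 * B ^ (d + 2) * rho v α := by
  classical
  have hB0 : 0 < B := by linarith
  have hBi : 0 < B⁻¹ := inv_pos.2 hB0
  have hy0 : ∀ p, y p ≠ 0 := by
    intro p h0
    have h1 := (hy p).1
    rw [h0, abs_zero, zero_mul] at h1
    linarith
  obtain ⟨τ, hτ⟩ : ∃ τ : Fin d → Fin d → ℝ, τ = fun p l => |v p l| * Real.exp (α p - α l) :=
    ⟨_, rfl⟩
  obtain ⟨t, ht⟩ : ∃ t : Fin d → Fin d → ℝ, t = fun p l => v p l * y l / y p := ⟨_, rfl⟩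
  obtain ⟨ε, hε⟩ : ∃ ε : Fin d → ℝ, ε = fun p => ∑ l, t p l := ⟨_, rfl⟩
  have hτ0 : ∀ p l, 0 ≤ τ p l := by
    intro p l
    rw [hτ]
    exact mul_nonneg (abs_nonneg _) (Real.exp_pos _).le
  have ht1 : ∀ p l, τ p l ≤ B ^ 2 * |t p l| := by
    intro p l
    rw [hτ, ht]
    exact (twv_t hB hy v p l).1
  have ht2 : ∀ p l, |t p l| ≤ B ^ 2 * τ p l := by
    intro p l
    rw [hτ, ht]
    exact (twv_t hB hy v p l).2
  have hrt : rho v α = ∑ p, ∑ l, τ p l := by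
    rw [hτ]
    rfl
  have hmul : ∀ p, ((1 + v) *ᵥ y) p = y p * (1 + ε p) := by
    intro p
    rw [Matrix.add_mulVec, Matrix.one_mulVec, Pi.add_apply, hε, ht, mul_add, mul_one,
      Finset.mul_sum]
    congr 1
    unfold Matrix.mulVec dotProduct
    refine Finset.sum_congr rfl fun l _ => ?_
    have := hy0 p
    field_simp
  -- the dominating pair
  obtain ⟨p₀, l₀, hv0, hdom⟩ := hdom
  have hτ00 : 0 < τ p₀ l₀ := by
    rw [hτ]
    exact mul_pos (abs_pos.2 hv0) (Real.exp_pos _)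
  have hd1 : (1 : ℝ) ≤ d := by
    have : 0 < d := lt_of_le_of_lt (Nat.zero_le _) p₀.2
    exact_mod_cast this
  have hB4 : 1 ≤ B ^ 4 := one_le_pow₀ hB
  have hB2 : 1 ≤ B ^ 2 := one_le_pow₀ hB
  have hd2 : 1 ≤ (d : ℝ) ^ 2 := one_le_pow₀ hd1
  have hLam : 0 < Lam := by
    have h1 : 1 * 1 ≤ (d : ℝ) ^ 2 * B ^ 4 := mul_le_mul hd2 hB4 zero_le_one (by linarith)
    linarith
  have hoth : ∀ p l, (p, l) ≠ (p₀, l₀) → τ p l ≤ τ p₀ l₀ / Lam := by
    intro p l hpl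
    rw [le_div_iff₀ hLam, mul_comm]
    have := hdom p l hpl
    rw [hτ]
    exact this
  -- double sums over pairs
  have hpair : ∀ f : Fin d → Fin d → ℝ, ∑ p, ∑ l, f p l =
      f p₀ l₀ + ∑ x ∈ (Finset.univ : Finset (Fin d × Fin d)).erase (p₀, l₀), f x.1 x.2 := by
    intro f
    rw [← Finset.univ_product_univ, ← Finset.sum_product' (s := Finset.univ) (t := Finset.univ) (f := f),
      ← Finset.add_sum_erase _ (fun x : Fin d × Fin d => f x.1 x.2)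
        (Finset.mem_product.2 ⟨Finset.mem_univ _, Finset.mem_univ _⟩ : (p₀, l₀) ∈
          (Finset.univ ×ˢ Finset.univ : Finset (Fin d × Fin d)))]
  have hcard : (((Finset.univ : Finset (Fin d × Fin d)).erase (p₀, l₀)).card : ℝ) ≤ (d : ℝ) ^ 2 := by
    have h1 : ((Finset.univ : Finset (Fin d × Fin d)).erase (p₀, l₀)).card ≤ d ^ 2 := by
      refine (Finset.card_le_card (Finset.erase_subset _ _)).trans ?_
      rw [Finset.card_univ, Fintype.card_prod, Fintype.card_fin, sq]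
    exact_mod_cast h1
  obtain ⟨τ₀, hτ₀⟩ : ∃ τ₀, τ₀ = τ p₀ l₀ := ⟨_, rfl⟩
  rw [← hτ₀] at hτ00 hoth
  have hrest : ∑ x ∈ (Finset.univ : Finset (Fin d × Fin d)).erase (p₀, l₀), τ x.1 x.2 ≤
      (d : ℝ) ^ 2 * (τ₀ / Lam) := by
    have h1 : ∑ x ∈ (Finset.univ : Finset (Fin d × Fin d)).erase (p₀, l₀), τ x.1 x.2 ≤
        ∑ _x ∈ (Finset.univ : Finset (Fin d × Fin d)).erase (p₀, l₀), τ₀ / Lam :=
      Finset.sum_le_sum fun x hx => hoth x.1 x.2 (Finset.ne_of_mem_erase hx)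
    rw [Finset.sum_const, nsmul_eq_mul] at h1
    exact h1.trans (mul_le_mul_of_nonneg_right hcard (by positivity))
  have hsmall : B ^ 4 * ((d : ℝ) ^ 2 * (τ₀ / Lam)) ≤ τ₀ / 8 := by
    have h1 : B ^ 4 * ((d : ℝ) ^ 2 * (τ₀ / Lam)) = (8 * (d : ℝ) ^ 2 * B ^ 4) / Lam * (τ₀ / 8) := by
      field_simp
    rw [h1]
    have h2 : (8 * (d : ℝ) ^ 2 * B ^ 4) / Lam ≤ 1 := (div_le_one hLam).2 hL
    have := mul_le_mul_of_nonneg_right h2 (by linarith : 0 ≤ τ₀ / 8)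
    linarith
  have hrho1 : rho v α ≤ 2 * τ₀ := by
    rw [hrt, hpair τ, ← hτ₀]
    have h1 : 0 ≤ (d : ℝ) ^ 2 * (τ₀ / Lam) := by positivity
    have h2 : (d : ℝ) ^ 2 * (τ₀ / Lam) ≤ B ^ 4 * ((d : ℝ) ^ 2 * (τ₀ / Lam)) := by
      have := mul_le_mul_of_nonneg_right hB4 h1
      linarith
    linarith
  have hrho2 : τ₀ ≤ rho v α := by
    rw [hrt, hpair τ, ← hτ₀]
    have : 0 ≤ ∑ x ∈ (Finset.univ : Finset (Fin d × Fin d)).erase (p₀, l₀), τ x.1 x.2 :=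
      Finset.sum_nonneg fun x _ => hτ0 x.1 x.2
    linarith
  have hrp : 0 < rho v α := by linarith
  -- sum of the `ε`
  have hεS : ∑ p, ε p = t p₀ l₀ + ∑ x ∈ (Finset.univ : Finset (Fin d × Fin d)).erase (p₀, l₀),
      t x.1 x.2 := by
    rw [← hpair t, hε]
  have hrest2 : |∑ x ∈ (Finset.univ : Finset (Fin d × Fin d)).erase (p₀, l₀), t x.1 x.2| ≤
      B ^ 2 * ((d : ℝ) ^ 2 * (τ₀ / Lam)) := by
    refine (Finset.abs_sum_le_sum_abs _ _).trans ?_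
    refine (Finset.sum_le_sum fun x _ => ht2 x.1 x.2).trans ?_
    rw [← Finset.mul_sum]
    exact mul_le_mul_of_nonneg_left hrest (by positivity)
  obtain ⟨S, hS⟩ : ∃ S, S = ∑ p, |ε p| := ⟨_, rfl⟩
  have hS1 : S ≤ B ^ 2 * rho v α := by
    rw [hS, hrt, Finset.mul_sum]
    refine Finset.sum_le_sum fun p _ => ?_
    rw [hε, Finset.mul_sum]
    exact (Finset.abs_sum_le_sum_abs _ _).trans (Finset.sum_le_sum fun l _ => ht2 p l)
  have hS0 : 0 ≤ S := by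
    rw [hS]
    exact Finset.sum_nonneg fun _ _ => abs_nonneg _
  have hB6 : 0 < 8 * B ^ 6 := by positivity
  have hr6 : 8 * B ^ 6 * rho v α ≤ 1 := by
    have h1 := mul_le_mul_of_nonneg_left hrho hB6.le
    rwa [mul_one_div, div_self hB6.ne'] at h1
  have hS8 : S ≤ 1 / 8 := by
    have h1 : B ^ 2 ≤ B ^ 6 := pow_le_pow_right₀ hB (by norm_num)
    have h2 := mul_le_mul_of_nonneg_right h1 hrp.le
    linarith
  have hprod := prod_one_add ε (by rw [← hS]; linarith)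
  rw [← hS] at hprod
  -- comparison of the products
  have hYY : ∏ p, ((1 + v) *ᵥ y) p = (∏ p, y p) * ∏ p, (1 + ε p) := by
    rw [← Finset.prod_mul_distrib]
    exact Finset.prod_congr rfl fun p _ => hmul p
  have hdiff : |∏ p, y p - ∏ p, ((1 + v) *ᵥ y) p| = |∏ p, y p| * |∏ p, (1 + ε p) - 1| := by
    rw [hYY, ← abs_mul, ← abs_neg]
    congr 1
    ring
  have hPy : |∏ p, y p| = ∏ p, (|y p| * Real.exp (α p)) := by
    rw [Finset.prod_mul_distrib, ← Real.exp_sum, hα, Real.exp_zero, mul_one, Finset.abs_prod]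
  have hP1 : |∏ p, y p| ≤ B ^ d := by
    rw [hPy]
    have h1 : ∏ p : Fin d, (|y p| * Real.exp (α p)) ≤ ∏ _p : Fin d, B :=
      Finset.prod_le_prod (fun p _ => mul_nonneg (abs_nonneg _) (Real.exp_pos _).le)
        fun p _ => (hy p).2
    rwa [Finset.prod_const, Finset.card_univ, Fintype.card_fin] at h1
  have hP2 : (B ^ d)⁻¹ ≤ |∏ p, y p| := by
    rw [hPy]
    have h1 : ∏ _p : Fin d, B⁻¹ ≤ ∏ p : Fin d, (|y p| * Real.exp (α p)) :=
      Finset.prod_le_prod (fun p _ => hBi.le) fun p _ => (hy p).1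
    rwa [Finset.prod_const, Finset.card_univ, Fintype.card_fin, inv_pow] at h1
  -- bounds for `W = |∏ (1 + ε p) - 1|`
  obtain ⟨W, hW⟩ : ∃ W, W = |∏ p, (1 + ε p) - 1| := ⟨_, rfl⟩
  have hW1 : W ≤ 2 * (B ^ 2 * rho v α) := by
    have h1 : ∏ p, (1 + ε p) - 1 = (∏ p, (1 + ε p) - 1 - ∑ p, ε p) + ∑ p, ε p := by ring
    have h2 := abs_add_le (∏ p, (1 + ε p) - 1 - ∑ p, ε p) (∑ p, ε p)
    rw [← h1, ← hW] at h2
    have h3 : |∑ p, ε p| ≤ S := by
      rw [hS]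
      exact Finset.abs_sum_le_sum_abs _ _
    have h4 : S ^ 2 ≤ S := by nlinarith
    linarith
  have hW2 : rho v α ≤ 4 * (B ^ 2 * W) := by
    have h2 : |∑ p, ε p| ≤ W + S ^ 2 := by
      have h1 : ∑ p, ε p = (∏ p, (1 + ε p) - 1) + -(∏ p, (1 + ε p) - 1 - ∑ p, ε p) := by ring
      have h3 := abs_add_le (∏ p, (1 + ε p) - 1) (-(∏ p, (1 + ε p) - 1 - ∑ p, ε p))
      rw [← h1, abs_neg, ← hW] at h3
      linarith
    have h3 : |t p₀ l₀| ≤ |∑ p, ε p| + B ^ 2 * ((d : ℝ) ^ 2 * (τ₀ / Lam)) := by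
      have h4 : t p₀ l₀ = ∑ p, ε p +
          -(∑ x ∈ (Finset.univ : Finset (Fin d × Fin d)).erase (p₀, l₀), t x.1 x.2) := by
        rw [hεS]
        ring
      have h5 := abs_add_le (∑ p, ε p)
        (-(∑ x ∈ (Finset.univ : Finset (Fin d × Fin d)).erase (p₀, l₀), t x.1 x.2))
      rw [← h4, abs_neg] at h5
      linarith
    have h4 := ht1 p₀ l₀
    rw [← hτ₀] at h4
    have h5 : S ^ 2 ≤ (B ^ 2 * rho v α) * (B ^ 2 * rho v α) := by
      rw [sq]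
      exact mul_le_mul hS1 hS1 hS0 (by positivity)
    have h6 : B ^ 2 * S ^ 2 ≤ τ₀ / 4 := by
      have h7 : B ^ 2 * S ^ 2 ≤ B ^ 2 * ((B ^ 2 * rho v α) * (B ^ 2 * rho v α)) :=
        mul_le_mul_of_nonneg_left h5 (by positivity)
      have h8 : B ^ 2 * ((B ^ 2 * rho v α) * (B ^ 2 * rho v α)) =
          (8 * B ^ 6 * rho v α) * rho v α / 8 := by ring
      have h9 : (8 * B ^ 6 * rho v α) * rho v α ≤ 1 * rho v α :=
        mul_le_mul_of_nonneg_right hr6 hrp.le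
      linarith
    have h7 : τ₀ ≤ B ^ 2 * (W + S ^ 2 + B ^ 2 * ((d : ℝ) ^ 2 * (τ₀ / Lam))) := by
      have h8 : B ^ 2 * |t p₀ l₀| ≤ B ^ 2 * (W + S ^ 2 + B ^ 2 * ((d : ℝ) ^ 2 * (τ₀ / Lam))) :=
        mul_le_mul_of_nonneg_left (by linarith) (by positivity)
      exact h4.trans h8
    have h8 : B ^ 2 * (W + S ^ 2 + B ^ 2 * ((d : ℝ) ^ 2 * (τ₀ / Lam))) =
        B ^ 2 * W + B ^ 2 * S ^ 2 + B ^ 4 * ((d : ℝ) ^ 2 * (τ₀ / Lam)) := by ring
    linarith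
  have hW0 : 0 ≤ W := by
    rw [hW]
    exact abs_nonneg _
  refine ⟨?_, ?_, ?_⟩
  · intro p
    have h1 : |ε p| ≤ 1 / 8 := by
      have : |ε p| ≤ S := by
        rw [hS]
        exact Finset.single_le_sum (f := fun p => |ε p|) (fun _ _ => abs_nonneg _)
          (Finset.mem_univ p)
      linarith
    obtain ⟨h2, h3⟩ := abs_le.1 h1
    have h4 : |1 + ε p| = 1 + ε p := abs_of_pos (by linarith)
    rw [hmul p, abs_mul, h4]
    have h5 : |y p| * (1 + ε p) * Real.exp (α p) = (|y p| * Real.exp (α p)) * (1 + ε p) := by ring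
    rw [h5]
    obtain ⟨h6, h7⟩ := hy p
    have h8 : 0 < |y p| * Real.exp (α p) := lt_of_lt_of_le hBi h6
    constructor
    · rw [mul_inv]
      have h9 : (|y p| * Real.exp (α p)) * (1 / 2) ≤ (|y p| * Real.exp (α p)) * (1 + ε p) :=
        mul_le_mul_of_nonneg_left (by linarith) h8.le
      linarith
    · have h9 : (|y p| * Real.exp (α p)) * (1 + ε p) ≤ (|y p| * Real.exp (α p)) * 2 :=
        mul_le_mul_of_nonneg_left (by linarith) h8.le
      linarith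
  · rw [hdiff, ← hW]
    have h1 : (B ^ d)⁻¹ * (rho v α / (4 * B ^ 2)) ≤ |∏ p, y p| * W := by
      refine mul_le_mul hP2 ?_ (by positivity) (abs_nonneg _)
      rw [div_le_iff₀ (by positivity)]
      linarith
    refine le_trans (le_of_eq ?_) h1
    rw [pow_add]
    field_simp
  · rw [hdiff, ← hW]
    have h1 : |∏ p, y p| * W ≤ B ^ d * (2 * (B ^ 2 * rho v α)) :=
      mul_le_mul hP1 hW1 hW0 (by positivity)
    refine h1.trans (le_of_eq ?_)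
    rw [pow_add]
    ring

end Pool.Agent.H66.RL
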